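import Pool.Agent.Q125.Monical.Defs

/-!
# The lists of partitions and of horizontal strips
-/

set_option autoImplicit false

namespace Pool.Agent.Q125.Monical

/-- A partition: a weakly decreasing list of positive numbers. -/
def Good (m : List ℕ) : Prop := m.Pairwise (· ≥ ·) ∧ ∀ x ∈ m, 0 < x

theorem good_nil : Good [] := ⟨List.Pairwise.nil, by simp⟩

theorem good_cons {h : ℕ} {t : List ℕ} : Good (h :: t) ↔ 0 < h ∧ (∀ x ∈ t, x ≤ h) ∧ Good t := by
  unfold Good
  rw [List.pairwise_cons]
  simp only [List.mem_cons, forall_eq_or_imp]
  tauto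

theorem good_le_head {h : ℕ} {t : List ℕ} (hg : Good (h :: t)) (i : ℕ) : t.getD i 0 ≤ h := by
  rw [good_cons] at hg
  rw [List.getD_eq_getElem?_getD]
  rcases lt_or_ge i t.length with hi | hi
  · rw [List.getElem?_eq_getElem hi]
    exact hg.2.1 _ (List.getElem_mem hi)
  · rw [List.getElem?_eq_none hi]
    exact Nat.zero_le _

theorem strips_cons_cons (m1 m2 : ℕ) (rest : List ℕ) : strips (m1 :: m2 :: rest) =
    (strips (m2 :: rest)).flatMap
      (fun ν => (List.range (m1 - m2 + 1)).map fun i => (m2 + i) :: ν) := rfl

theorem strips_single (m1 : ℕ) :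
    strips [m1] = [] :: (List.range m1).map (fun i => [i + 1]) := rfl

theorem strips_nil : strips [] = [[]] := rfl

/-- The members of `strips μ`. -/
theorem mem_strips : ∀ {m : List ℕ}, Good m → ∀ {n : List ℕ}, n ∈ strips m ↔
    Good n ∧ ∀ i, m.getD (i + 1) 0 ≤ n.getD i 0 ∧ n.getD i 0 ≤ m.getD i 0
  | [], _, n => by
    rw [strips_nil, List.mem_singleton]
    constructor
    · rintro rfl
      exact ⟨good_nil, by simp⟩
    · rintro ⟨hg, h⟩
      cases n with
      | nil => rfl
      | cons a t =>
        have h0 := (h 0).2
        have := (good_cons.1 hg).1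
        simp at h0
        omega
  | [m1], hm, n => by
    rw [strips_single]
    simp only [List.mem_cons, List.mem_map, List.mem_range]
    constructor
    · rintro (rfl | ⟨i, hi, rfl⟩)
      · exact ⟨good_nil, by simp⟩
      · refine ⟨⟨by simp, by simp⟩, ?_⟩
        intro j
        cases j with
        | zero => simp; omega
        | succ j => simp
    · rintro ⟨hg, h⟩
      cases n with
      | nil => exact Or.inl rfl
      | cons a t =>
        right
        have h0 := (h 0).2
        have h1 := (h 1).2
        rw [good_cons] at hg
        cases t with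
        | nil =>
          refine ⟨a - 1, ?_, ?_⟩
          · simp at h0
            omega
          · have := hg.1
            congr
            omega
        | cons b t =>
          have := (good_cons.1 hg.2.2).1
          simp at h1
          omega
  | m1 :: m2 :: rest, hm, n => by
    have hm' := good_cons.1 hm
    have ih := fun n => mem_strips (m := m2 :: rest) hm'.2.2 (n := n)
    have hm2 : m2 ≤ m1 := hm'.2.1 m2 (by simp)
    have hm2' : 0 < m2 := (good_cons.1 hm'.2.2).1
    rw [strips_cons_cons]
    simp only [List.mem_flatMap, List.mem_map, List.mem_range]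
    constructor
    · rintro ⟨ν, hν, i, hi, rfl⟩
      obtain ⟨hg, h⟩ := (ih ν).1 hν
      refine ⟨good_cons.2 ⟨by omega, ?_, hg⟩, ?_⟩
      · intro x hx
        cases ν with
        | nil => simp at hx
        | cons a t =>
          have h0 := (h 0).2
          simp at h0
          rw [List.mem_cons] at hx
          rcases hx with rfl | hx
          · omega
          · have := (good_cons.1 hg).2.1 x hx
            omega
      · intro j
        cases j with
        | zero => simp; omega
        | succ j => simpa using h j
    · rintro ⟨hg, h⟩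
      cases n with
      | nil =>
        have := (h 0).1
        simp at this
        omega
      | cons a t =>
        have h0 := h 0
        simp at h0
        refine ⟨t, (ih t).2 ⟨(good_cons.1 hg).2.2, fun j => by simpa using h (j + 1)⟩, a - m2, by omega, ?_⟩
        congr
        omega

theorem strips_nodup : ∀ m : List ℕ, (strips m).Nodup
  | [] => by simp [strips_nil]
  | [m1] => by
    rw [strips_single, List.nodup_cons]
    refine ⟨by simp, ?_⟩
    exact (List.nodup_range).map fun a b h => by simpa using h
  | m1 :: m2 :: rest => by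
    rw [strips_cons_cons, List.nodup_flatMap]
    refine ⟨fun ν _ => (List.nodup_range).map fun a b h => by simpa using h, ?_⟩
    refine (strips_nodup (m2 :: rest)).imp ?_
    intro ν ν' hne
    rw [Function.onFun, List.disjoint_left]
    intro x hx hx'
    simp only [List.mem_map, List.mem_range] at hx hx'
    obtain ⟨i, -, rfl⟩ := hx
    obtain ⟨j, -, hj⟩ := hx'
    simp only [List.cons.injEq] at hj
    exact hne hj.2.symm

theorem sum_le_of_mem_strips : ∀ {m : List ℕ}, Good m → ∀ {n : List ℕ}, n ∈ strips m → n.sum ≤ m.sum
  | [], _, n, h => by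
    rw [strips_nil, List.mem_singleton] at h
    rw [h]
  | [m1], _, n, h => by
    rw [strips_single] at h
    simp only [List.mem_cons, List.mem_map, List.mem_range] at h
    rcases h with rfl | ⟨i, hi, rfl⟩
    · simp
    · simp
      omega
  | m1 :: m2 :: rest, hm, n, h => by
    have hm' := good_cons.1 hm
    have hm2 : m2 ≤ m1 := hm'.2.1 m2 (by simp)
    rw [strips_cons_cons] at h
    simp only [List.mem_flatMap, List.mem_map, List.mem_range] at h
    obtain ⟨ν, hν, i, hi, rfl⟩ := h
    have := sum_le_of_mem_strips hm'.2.2 hν
    simp only [List.sum_cons] at this ⊢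
    omega

theorem mem_pts : ∀ (f mx n : ℕ), n ≤ f → ∀ ν : List ℕ,
    ν ∈ pts f mx n ↔ Good ν ∧ (∀ x ∈ ν, x ≤ mx) ∧ ν.sum = n
  | 0, mx, n, hn, ν => by
    obtain rfl : n = 0 := by omega
    simp only [pts, if_true, List.mem_singleton]
    constructor
    · rintro rfl
      exact ⟨good_nil, by simp, rfl⟩
    · rintro ⟨hg, -, hs⟩
      cases ν with
      | nil => rfl
      | cons a t =>
        have := (good_cons.1 hg).1
        simp at hs
        omega
  | f + 1, mx, n, hn, ν => by
    rw [pts]
    rcases Nat.eq_zero_or_pos n with rfl | hpos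
    · simp only [if_true, List.mem_singleton]
      constructor
      · rintro rfl
        exact ⟨good_nil, by simp, rfl⟩
      · rintro ⟨hg, -, hs⟩
        cases ν with
        | nil => rfl
        | cons a t =>
          have := (good_cons.1 hg).1
          simp at hs
          omega
    · rw [if_neg (by omega)]
      simp only [List.mem_flatMap, List.mem_map, List.mem_range]
      constructor
      · rintro ⟨i, hi, t, ht, rfl⟩
        obtain ⟨hg, hx, hs⟩ := (mem_pts f (i + 1) (n - (i + 1)) (by omega) t).1 ht
        refine ⟨good_cons.2 ⟨by omega, hx, hg⟩, ?_, ?_⟩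
        · intro x hx'
          rw [List.mem_cons] at hx'
          rcases hx' with rfl | hx'
          · omega
          · have := hx x hx'
            omega
        · rw [List.sum_cons, hs]
          omega
      · rintro ⟨hg, hx, hs⟩
        cases ν with
        | nil =>
          simp at hs
          omega
        | cons a t =>
          have ha := (good_cons.1 hg).1
          have hax := hx a (by simp)
          rw [List.sum_cons] at hs
          refine ⟨a - 1, by omega, t, (mem_pts f (a - 1 + 1) (n - (a - 1 + 1)) (by omega) t).2
            ⟨(good_cons.1 hg).2.2, ?_, by omega⟩, ?_⟩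
          · intro x hx'
            have := (good_cons.1 hg).2.1 x hx'
            omega
          · congr
            omega

theorem mem_P {n : ℕ} {ν : List ℕ} : ν ∈ P n ↔ Good ν ∧ ν.sum = n := by
  rw [P, mem_pts n n n le_rfl]
  constructor
  · rintro ⟨h1, -, h3⟩
    exact ⟨h1, h3⟩
  · rintro ⟨h1, h3⟩
    exact ⟨h1, fun x hx => h3 ▸ List.le_sum_of_mem hx, h3⟩

theorem mem_U {ν : List ℕ} : ν ∈ U ↔ Good ν ∧ ν.sum ≤ 13 := by
  simp only [U, List.mem_flatMap, List.mem_range, mem_P]
  constructor
  · rintro ⟨n, hn, h1, h2⟩
    exact ⟨h1, by omega⟩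
  · rintro ⟨h1, h2⟩
    exact ⟨ν.sum, by omega, h1, rfl⟩

theorem strips_subset_U {m : List ℕ} (hm : m ∈ U) {n : List ℕ} (hn : n ∈ strips m) : n ∈ U := by
  rw [mem_U] at hm ⊢
  exact ⟨((mem_strips hm.1).1 hn).1, (sum_le_of_mem_strips hm.1 hn).trans hm.2⟩

end Pool.Agent.Q125.Monical
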