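import Pool.Agent.Q125.Monical.State
import Pool.Agent.Q125.Monical.Lists

/-!
# The verified computation
-/

set_option autoImplicit false

namespace Pool.Agent.Q125.Monical

/-- Evaluate the number before the call. -/
def force (n : ℕ) (f : ℕ → Bool) : Bool :=
  match n with
  | 0 => f 0
  | n + 1 => f (n + 1)

theorem force_eq (n : ℕ) (f : ℕ → Bool) : force n f = f n := by
  cases n <;> rfl

/-- Evaluate the numbers of the list before the call. -/
def forceL : List ℕ → (List ℕ → Bool) → Bool
  | [], f => f []
  | a :: l, f => force a fun a' => forceL l fun l' => f (a' :: l')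

theorem forceL_eq : ∀ (l : List ℕ) (f : List ℕ → Bool), forceL l f = f l
  | [], f => rfl
  | a :: l, f => by rw [forceL, force_eq, forceL_eq l]

/-- `∑ c * w`. -/
def dotL : List ℤ → List ℕ → ℤ
  | c :: v, w :: ws => c * (w : ℤ) + dotL v ws
  | _, _ => 0

/-- The comparison for all the states with `n` vertices. -/
def levelCheck (n : ℕ) : Bool :=
  forceL ((P n).map W) fun Ws =>
    (List.range 5).all fun a => (List.range 3).all fun p => (List.range 3).all fun q =>
      (List.range 6).all fun b => (a + p + q + b != n) || decide (dotL (cvec a p q b) Ws = rhsN a p q b)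

theorem lev0 : levelCheck 0 = true := by decide +kernel
theorem lev1 : levelCheck 1 = true := by decide +kernel
theorem lev2 : levelCheck 2 = true := by decide +kernel
theorem lev3 : levelCheck 3 = true := by decide +kernel
theorem lev4 : levelCheck 4 = true := by decide +kernel
theorem lev5 : levelCheck 5 = true := by decide +kernel
theorem lev6 : levelCheck 6 = true := by decide +kernel
theorem lev7 : levelCheck 7 = true := by decide +kernel
theorem lev8 : levelCheck 8 = true := by decide +kernel
theorem lev9 : levelCheck 9 = true := by decide +kernel
theorem lev10 : levelCheck 10 = true := by decide +kernel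
theorem lev11 : levelCheck 11 = true := by decide +kernel
theorem lev12 : levelCheck 12 = true := by decide +kernel
theorem lev13 : levelCheck 13 = true := by decide +kernel

theorem lev (n : ℕ) (hn : n ≤ 13) : levelCheck n = true := by
  interval_cases n
  exacts [lev0, lev1, lev2, lev3, lev4, lev5, lev6, lev7, lev8, lev9, lev10, lev11, lev12, lev13]

theorem lev_sound {a p q b : ℕ} (ha : a ≤ 4) (hp : p ≤ 2) (hq : q ≤ 2) (hb : b ≤ 5) :
    dotL (cvec a p q b) ((P (a + p + q + b)).map W) = rhsN a p q b := by
  have h := lev (a + p + q + b) (by omega)
  rw [levelCheck, forceL_eq] at h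
  simp only [List.all_eq_true, List.mem_range] at h
  have h1 := h a (by omega) p (by omega) q (by omega) b (by omega)
  simpa using h1

/-- The sum of the absolute values. -/
def absum : List ℤ → ℕ
  | [] => 0
  | c :: v => c.natAbs + absum v

/-- The check of the table. -/
def tableCheck : Bool :=
  (List.range 5).all fun a => (List.range 3).all fun p => (List.range 3).all fun q =>
    (List.range 6).all fun b => decide (enc (cvec a p q b) = vZ a p q b) &&
      decide (absum (cvec a p q b) ≤ 100000000)

theorem tableCheck_eq : tableCheck = true := by decide +kernel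

theorem table_sound {a p q b : ℕ} (ha : a ≤ 4) (hp : p ≤ 2) (hq : q ≤ 2) (hb : b ≤ 5) :
    enc (cvec a p q b) = vZ a p q b ∧ absum (cvec a p q b) ≤ 100000000 := by
  have h := tableCheck_eq
  unfold tableCheck at h
  simp only [List.all_eq_true, List.mem_range] at h
  have h1 := h a (by omega) p (by omega) q (by omega) b (by omega)
  rw [Bool.and_eq_true, decide_eq_true_eq, decide_eq_true_eq] at h1
  exact h1

/-- The check of the positions. -/
def idxCheck (n : ℕ) : Bool := (P n).map idx == List.range' (off n) (plen n)

theorem idxCheck_eq : (List.range 14).all idxCheck = true := by decide +kernel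

theorem P_idx {n : ℕ} (hn : n ≤ 13) : (P n).map idx = List.range' (off n) (plen n) := by
  have h := idxCheck_eq
  simp only [List.all_eq_true, List.mem_range] at h
  have h1 := h n (by omega)
  rw [idxCheck] at h1
  exact eq_of_beq h1

theorem U_idx : U.map idx = List.range' 0 373 := by
  have h : (U.map idx == List.range' 0 373) = true := by decide +kernel
  exact eq_of_beq h

theorem cvec_zero : cvec 0 0 0 0 = [1] := by decide +kernel

/-- The coefficients of the main example are nonnegative. -/
theorem cvec_nonneg : ∀ c ∈ cvec 4 2 2 5, 0 ≤ c := by
  have h : ((cvec 4 2 2 5).all fun c => decide (0 ≤ c)) = true := by decide +kernel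
  simp only [List.all_eq_true, decide_eq_true_eq] at h
  exact h

end Pool.Agent.Q125.Monical
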