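import Mathlib

/-!
# The chromatic polynomials of blow-ups of the path on four vertices, colour by colour
-/

set_option autoImplicit false

open Finset

namespace Pool.Agent.Q125.Monical

section coloring

variable {V : Type} [Fintype V] [DecidableEq V] (adj : V → V → Prop) [DecidableRel adj]

/-- The proper colourings of `U` with the colours less than `k` (and the value `0` off `U`). -/
def Col (k : ℕ) (U : Finset V) : Finset (V → ℕ) :=
  (Fintype.piFinset fun v => if v ∈ U then range k else {0}).filter
    fun κ => ∀ u ∈ U, ∀ v ∈ U, adj u v → κ u ≠ κ v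

theorem mem_Col (k : ℕ) (U : Finset V) (κ : V → ℕ) : κ ∈ Col adj k U ↔
    (∀ v ∈ U, κ v < k) ∧ (∀ v, v ∉ U → κ v = 0) ∧ ∀ u ∈ U, ∀ v ∈ U, adj u v → κ u ≠ κ v := by
  rw [Col, mem_filter, Fintype.mem_piFinset]
  constructor
  · rintro ⟨h1, h2⟩
    refine ⟨fun v hv => ?_, fun v hv => ?_, h2⟩
    · have := h1 v
      rw [if_pos hv, mem_range] at this
      exact this
    · have := h1 v
      rw [if_neg hv, mem_singleton] at this
      exact this
  · rintro ⟨h1, h2, h3⟩
    refine ⟨fun v => ?_, h3⟩
    by_cases hv : v ∈ U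
    · rw [if_pos hv, mem_range]
      exact h1 v hv
    · rw [if_neg hv, mem_singleton]
      exact h2 v hv

/-- The generating function of the proper colourings of `U` with the colours less than `k`. -/
noncomputable def Z (k : ℕ) (U : Finset V) : MvPolynomial ℕ ℤ :=
  ∑ κ ∈ Col adj k U, ∏ v ∈ U, MvPolynomial.X (κ v)

/-- Stable sets. -/
def Stab (S : Finset V) : Prop := ∀ u ∈ S, ∀ v ∈ S, ¬ adj u v

instance (S : Finset V) : Decidable (Stab adj S) := by
  unfold Stab
  infer_instance

theorem Z_zero (U : Finset V) : Z adj 0 U = if U = ∅ then 1 else 0 := by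
  rw [Z]
  split_ifs with h
  · subst h
    have : Col adj 0 (∅ : Finset V) = {fun _ => 0} := by
      ext κ
      rw [mem_Col, mem_singleton]
      constructor
      · rintro ⟨-, h, -⟩
        funext v
        exact h v (by simp)
      · rintro rfl
        simp
    rw [this]
    simp
  · obtain ⟨v, hv⟩ := nonempty_iff_ne_empty.2 h
    have : Col adj 0 U = ∅ := by
      rw [eq_empty_iff_forall_notMem]
      intro κ hκ
      exact Nat.not_lt_zero _ (((mem_Col adj 0 U κ).1 hκ).1 v hv)
    rw [this, sum_empty]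

theorem Z_succ (k : ℕ) (U : Finset V) : Z adj (k + 1) U =
    ∑ S ∈ U.powerset.filter (Stab adj), MvPolynomial.X k ^ S.card * Z adj k (U \ S) := by
  simp only [Z, mul_sum]
  rw [Finset.sum_sigma']
  refine Finset.sum_bij'
    (fun κ _ => (⟨U.filter fun v => κ v = k, fun v => if v ∈ U ∧ κ v = k then 0 else κ v⟩ :
      (_ : Finset V) × (V → ℕ)))
    (fun x _ => fun v => if v ∈ x.1 then k else x.2 v) ?_ ?_ ?_ ?_ ?_
  · intro κ hκ
    obtain ⟨h1, h2, h3⟩ := (mem_Col adj _ _ _).1 hκ
    rw [mem_sigma]
    simp only [mem_filter, mem_powerset, mem_Col]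
    refine ⟨⟨filter_subset _ _, ?_⟩, ?_, ?_, ?_⟩
    · intro u hu v hv huv
      rw [mem_filter] at hu hv
      exact h3 u hu.1 v hv.1 huv (hu.2.trans hv.2.symm)
    · intro v hv
      simp only [mem_sdiff, mem_filter, not_and] at hv
      rw [if_neg (fun h => hv.2 h.1 h.2)]
      have := h1 v hv.1
      have := hv.2 hv.1
      omega
    · intro v hv
      simp only [mem_sdiff, mem_filter, not_and] at hv
      split_ifs with h
      · rfl
      · by_cases hU : v ∈ U
        · exact absurd ⟨hU, by
            by_contra hne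
            exact hv hU fun _ => hne⟩ h
        · exact h2 v hU
    · intro u hu v hv huv
      simp only [mem_sdiff, mem_filter, not_and] at hu hv
      rw [if_neg (fun h => hu.2 h.1 h.2), if_neg (fun h => hv.2 h.1 h.2)]
      exact h3 u hu.1 v hv.1 huv
  · rintro ⟨S, κ⟩ hx
    rw [mem_sigma] at hx
    simp only [mem_filter, mem_powerset, mem_Col] at hx
    obtain ⟨⟨hS, hst⟩, h1, h2, h3⟩ := hx
    rw [mem_Col]
    refine ⟨?_, ?_, ?_⟩
    · intro v hv
      show (if v ∈ S then k else κ v) < k + 1
      split_ifs with h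
      · exact Nat.lt_succ_self k
      · exact (h1 v (mem_sdiff.2 ⟨hv, h⟩)).trans (Nat.lt_succ_self k)
    · intro v hv
      show (if v ∈ S then k else κ v) = 0
      rw [if_neg (fun h => hv (hS h))]
      exact h2 v (fun h => hv (mem_sdiff.1 h).1)
    · intro u hu v hv huv
      show (if u ∈ S then k else κ u) ≠ (if v ∈ S then k else κ v)
      by_cases hu' : u ∈ S
      · by_cases hv' : v ∈ S
        · exact absurd huv (hst u hu' v hv')
        · rw [if_pos hu', if_neg hv']
          exact (h1 v (mem_sdiff.2 ⟨hv, hv'⟩)).ne'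
      · by_cases hv' : v ∈ S
        · rw [if_neg hu', if_pos hv']
          exact (h1 u (mem_sdiff.2 ⟨hu, hu'⟩)).ne
        · rw [if_neg hu', if_neg hv']
          exact h3 u (mem_sdiff.2 ⟨hu, hu'⟩) v (mem_sdiff.2 ⟨hv, hv'⟩) huv
  · intro κ hκ
    obtain ⟨h1, h2, h3⟩ := (mem_Col adj _ _ _).1 hκ
    funext v
    show (if v ∈ U.filter (fun v => κ v = k) then k else if v ∈ U ∧ κ v = k then 0 else κ v) = κ v
    by_cases h : v ∈ U ∧ κ v = k
    · rw [if_pos (mem_filter.2 h)]
      exact h.2.symm
    · rw [if_neg (fun h' => h (mem_filter.1 h')), if_neg h]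
  · rintro ⟨S, κ⟩ hx
    rw [mem_sigma] at hx
    simp only [mem_filter, mem_powerset, mem_Col] at hx
    obtain ⟨⟨hS, hst⟩, h1, h2, h3⟩ := hx
    have key : ∀ v, (v ∈ U ∧ (if v ∈ S then k else κ v) = k) ↔ v ∈ S := by
      intro v
      constructor
      · rintro ⟨hv, h⟩
        by_contra hS'
        rw [if_neg hS'] at h
        exact absurd h (h1 v (mem_sdiff.2 ⟨hv, hS'⟩)).ne
      · intro h
        exact ⟨hS h, by rw [if_pos h]⟩
    refine Sigma.ext ?_ (heq_of_eq ?_)
    · show U.filter (fun v => (if v ∈ S then k else κ v) = k) = S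
      ext v
      rw [mem_filter]
      exact key v
    · show (fun v => if v ∈ U ∧ (if v ∈ S then k else κ v) = k then 0 else
        (if v ∈ S then k else κ v)) = κ
      funext v
      by_cases hv : v ∈ S
      · rw [if_pos ((key v).2 hv)]
        exact (h2 v (fun h => (mem_sdiff.1 h).2 hv)).symm
      · rw [if_neg (fun h => hv ((key v).1 h)), if_neg hv]
  · intro κ hκ
    show ∏ v ∈ U, MvPolynomial.X (κ v) = MvPolynomial.X k ^ (U.filter fun v => κ v = k).card *
      ∏ v ∈ U \ U.filter (fun v => κ v = k), MvPolynomial.X (if v ∈ U ∧ κ v = k then 0 else κ v)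
    rw [← prod_sdiff (filter_subset (fun v => κ v = k) U), mul_comm]
    congr 1
    · rw [← prod_const]
      refine prod_congr rfl ?_
      intro v hv
      rw [(mem_filter.1 hv).2]
    · refine prod_congr rfl ?_
      intro v hv
      simp only [mem_sdiff, mem_filter, not_and] at hv
      rw [if_neg (fun h => hv.2 h.1 h.2)]

/-- The sum over the proper colourings with values in `Fin k`. -/
theorem finsum_eq_Z (k : ℕ) :
    (∑ᶠ κ : {κ : V → Fin k // ∀ u v, adj u v → κ u ≠ κ v},
      ∏ v, (MvPolynomial.X ((κ.1 v : ℕ)) : MvPolynomial ℕ ℤ)) = Z adj k univ := by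
  classical
  rw [finsum_eq_sum_of_fintype, Z]
  refine Finset.sum_bij' (fun κ _ => fun v => ((κ.1 v : Fin k) : ℕ))
    (fun κ hκ => ⟨fun v => ⟨κ v, ((mem_Col adj _ _ _).1 hκ).1 v (mem_univ v)⟩, ?_⟩) ?_ ?_ ?_ ?_ ?_
  · intro u v huv h
    exact ((mem_Col adj _ _ _).1 hκ).2.2 u (mem_univ u) v (mem_univ v) huv (Fin.ext_iff.1 h)
  · intro κ _
    rw [mem_Col]
    refine ⟨fun v _ => (κ.1 v).2, fun v hv => absurd (mem_univ v) hv, fun u _ v _ huv h => ?_⟩
    exact κ.2 u v huv (Fin.ext h)
  · intro κ hκ
    exact mem_univ _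
  · intro κ _
    rfl
  · intro κ hκ
    rfl
  · intro κ _
    rfl

end coloring

section counts

variable {V : Type} [DecidableEq V] (cls : V → ℕ)

/-- The number of the vertices of a class. -/
def cnt (c : ℕ) (S : Finset V) : ℕ := (S.filter fun v => cls v = c).card

theorem cnt_insert (c : ℕ) (S : Finset V) (v : V) (hv : v ∉ S) :
    cnt cls c (insert v S) = cnt cls c S + if cls v = c then 1 else 0 := by
  unfold cnt
  rw [filter_insert]
  split_ifs with h
  · rw [card_insert_of_notMem]
    intro h'
    exact hv (mem_filter.1 h').1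
  · rw [add_zero]

omit [DecidableEq V] in
theorem cnt_eq_zero (c : ℕ) (S : Finset V) : cnt cls c S = 0 ↔ ∀ v ∈ S, cls v ≠ c := by
  unfold cnt
  rw [card_eq_zero, filter_eq_empty_iff]

theorem cnt_sdiff (c : ℕ) (U S : Finset V) (h : S ⊆ U) :
    cnt cls c (U \ S) = cnt cls c U - cnt cls c S := by
  unfold cnt
  rw [← card_sdiff_of_subset (filter_subset_filter _ h)]
  congr 1
  ext v
  simp only [mem_filter, mem_sdiff]
  tauto

theorem card_eq_cnt (S : Finset V) (hS : ∀ v ∈ S, cls v < 4) :
    S.card = cnt cls 0 S + cnt cls 1 S + cnt cls 2 S + cnt cls 3 S := by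
  induction S using Finset.induction_on with
  | empty => simp [cnt]
  | insert v S hv ih =>
    rw [card_insert_of_notMem hv, ih fun u hu => hS u (mem_insert_of_mem hu)]
    have h := hS v (mem_insert_self v S)
    simp only [cnt_insert cls _ S v hv]
    have : cls v = 0 ∨ cls v = 1 ∨ cls v = 2 ∨ cls v = 3 := by omega
    rcases this with h | h | h | h <;> simp [h] <;> omega

theorem pascal {A : Type} [CommRing A] (a : ℕ) (g : ℕ → A) :
    ∑ i ∈ range (a + 1 + 1), ((a + 1).choose i : A) * g i =
      ∑ i ∈ range (a + 1), (a.choose i : A) * g i +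
        ∑ i ∈ range (a + 1), (a.choose i : A) * g (i + 1) := by
  rw [Finset.sum_range_succ', Finset.sum_range_succ' (fun i => (a.choose i : A) * g i) a]
  have h1 : ∑ i ∈ range (a + 1), ((a + 1).choose (i + 1) : A) * g (i + 1) =
      ∑ i ∈ range (a + 1), (a.choose (i + 1) : A) * g (i + 1) +
        ∑ i ∈ range (a + 1), (a.choose i : A) * g (i + 1) := by
    rw [← sum_add_distrib]
    refine sum_congr rfl fun i _ => ?_
    rw [Nat.choose_succ_succ]
    push_cast
    ring
  have h2 : ∑ i ∈ range (a + 1), (a.choose (i + 1) : A) * g (i + 1) =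
      ∑ i ∈ range a, (a.choose (i + 1) : A) * g (i + 1) := by
    rw [sum_range_succ, Nat.choose_succ_self]
    simp
  rw [h1, h2]
  simp only [Nat.choose_zero_right]
  ring

/-- The sum over all subsets of a function of the counts. -/
theorem sum_powerset_cnt {A : Type} [CommRing A] (U : Finset V) (hU : ∀ v ∈ U, cls v < 4) :
    ∀ f : ℕ → ℕ → ℕ → ℕ → A,
    ∑ S ∈ U.powerset, f (cnt cls 0 S) (cnt cls 1 S) (cnt cls 2 S) (cnt cls 3 S) =
      ∑ i ∈ range (cnt cls 0 U + 1), ((cnt cls 0 U).choose i : A) *
        ∑ j ∈ range (cnt cls 1 U + 1), ((cnt cls 1 U).choose j : A) *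
          ∑ l ∈ range (cnt cls 2 U + 1), ((cnt cls 2 U).choose l : A) *
            ∑ m ∈ range (cnt cls 3 U + 1), ((cnt cls 3 U).choose m : A) * f i j l m := by
  induction U using Finset.induction_on with
  | empty =>
    intro f
    simp [cnt]
  | insert v U hv ih =>
    intro f
    have ih' := ih fun u hu => hU u (mem_insert_of_mem hu)
    rw [Finset.sum_powerset_insert hv, ih' f]
    have h := hU v (mem_insert_self v U)
    have hcong : ∀ g : Finset V → A, ∀ g' : Finset V → A,
        (∀ S ∈ U.powerset, g S = g' S) → ∑ S ∈ U.powerset, g S = ∑ S ∈ U.powerset, g' S :=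
      fun g g' h => Finset.sum_congr rfl h
    have hnot : ∀ S ∈ U.powerset, v ∉ S := fun S hS h => hv (mem_powerset.1 hS h)
    have hc : cls v = 0 ∨ cls v = 1 ∨ cls v = 2 ∨ cls v = 3 := by omega
    rcases hc with h | h | h | h
    · have h2 : ∑ S ∈ U.powerset, f (cnt cls 0 (insert v S)) (cnt cls 1 (insert v S))
          (cnt cls 2 (insert v S)) (cnt cls 3 (insert v S)) =
          ∑ S ∈ U.powerset, (fun i j l m => f (i + 1) j l m) (cnt cls 0 S) (cnt cls 1 S)
            (cnt cls 2 S) (cnt cls 3 S) := by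
        refine hcong _ _ fun S hS => ?_
        simp only [cnt_insert cls _ S v (hnot S hS), h]
        simp
      rw [h2, ih' fun i j l m => f (i + 1) j l m]
      simp only [cnt_insert cls _ U v hv, h]
      simp only [if_true, zero_ne_one, if_false, add_zero, OfNat.zero_ne_ofNat]
      rw [pascal]
    · have h2 : ∑ S ∈ U.powerset, f (cnt cls 0 (insert v S)) (cnt cls 1 (insert v S))
          (cnt cls 2 (insert v S)) (cnt cls 3 (insert v S)) =
          ∑ S ∈ U.powerset, (fun i j l m => f i (j + 1) l m) (cnt cls 0 S) (cnt cls 1 S)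
            (cnt cls 2 S) (cnt cls 3 S) := by
        refine hcong _ _ fun S hS => ?_
        simp only [cnt_insert cls _ S v (hnot S hS), h]
        simp
      rw [h2, ih' fun i j l m => f i (j + 1) l m]
      simp only [cnt_insert cls _ U v hv, h]
      simp only [if_true, one_ne_zero, if_false, add_zero, OfNat.one_ne_ofNat]
      rw [← sum_add_distrib]
      refine sum_congr rfl fun i _ => ?_
      rw [← mul_add, pascal]
    · have h2 : ∑ S ∈ U.powerset, f (cnt cls 0 (insert v S)) (cnt cls 1 (insert v S))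
          (cnt cls 2 (insert v S)) (cnt cls 3 (insert v S)) =
          ∑ S ∈ U.powerset, (fun i j l m => f i j (l + 1) m) (cnt cls 0 S) (cnt cls 1 S)
            (cnt cls 2 S) (cnt cls 3 S) := by
        refine hcong _ _ fun S hS => ?_
        simp only [cnt_insert cls _ S v (hnot S hS), h]
        simp
      rw [h2, ih' fun i j l m => f i j (l + 1) m]
      simp only [cnt_insert cls _ U v hv, h]
      simp only [if_true, OfNat.ofNat_ne_zero, OfNat.ofNat_ne_one, if_false, add_zero,
        show ¬ (2 : ℕ) = 3 by norm_num]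
      rw [← sum_add_distrib]
      refine sum_congr rfl fun i _ => ?_
      rw [← mul_add, ← sum_add_distrib]
      congr 1
      refine sum_congr rfl fun j _ => ?_
      rw [← mul_add, pascal]
    · have h2 : ∑ S ∈ U.powerset, f (cnt cls 0 (insert v S)) (cnt cls 1 (insert v S))
          (cnt cls 2 (insert v S)) (cnt cls 3 (insert v S)) =
          ∑ S ∈ U.powerset, (fun i j l m => f i j l (m + 1)) (cnt cls 0 S) (cnt cls 1 S)
            (cnt cls 2 S) (cnt cls 3 S) := by
        refine hcong _ _ fun S hS => ?_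
        simp only [cnt_insert cls _ S v (hnot S hS), h]
        simp
      rw [h2, ih' fun i j l m => f i j l (m + 1)]
      simp only [cnt_insert cls _ U v hv, h]
      simp only [if_true, OfNat.ofNat_ne_zero, OfNat.ofNat_ne_one, if_false, add_zero,
        show ¬ (3 : ℕ) = 2 by norm_num]
      rw [← sum_add_distrib]
      refine sum_congr rfl fun i _ => ?_
      rw [← mul_add, ← sum_add_distrib]
      congr 1
      refine sum_congr rfl fun j _ => ?_
      rw [← mul_add, ← sum_add_distrib]
      congr 1
      refine sum_congr rfl fun l _ => ?_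
      rw [← mul_add, pascal]

end counts

end Pool.Agent.Q125.Monical
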