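import Pool.Agent.Q125.Monical.Table

/-!
# The definitions of the verified computation

`P n` lists the partitions of `n`, `strips μ` lists the partitions `ν` for which `μ / ν` is a
horizontal strip, `idx ν` is the position of `ν` in the list of all partitions of `0, 1, …, 13`,
and `levelCheck n` compares, for all the blow-ups with `n` vertices, the encoded branching of the Schur
expansion with the encoded sum over the stable sets.
-/

set_option autoImplicit false

namespace Pool.Agent.Q125.Monical

/-- The partitions of `n` with parts at most `mx` (`f` bounds the number of parts). -/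
def pts : ℕ → ℕ → ℕ → List (List ℕ)
  | 0, _, n => if n = 0 then [[]] else []
  | f + 1, mx, n => if n = 0 then [[]] else
      (List.range (min mx n)).flatMap fun i => (pts f (i + 1) (n - (i + 1))).map (fun t => (i + 1) :: t)

/-- The partitions of `n`. -/
def P (n : ℕ) : List (List ℕ) := pts n n n

/-- All the partitions of `0, …, 13`. -/
def U : List (List ℕ) := (List.range 14).flatMap P

/-- The partitions `ν` for which `μ / ν` is a horizontal strip. -/
def strips : List ℕ → List (List ℕ)
  | [] => [[]]
  | m1 :: rest => match rest with
    | [] => [] :: (List.range m1).map (fun i => [i + 1])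
    | m2 :: _ => (strips rest).flatMap (fun ν => (List.range (m1 - m2 + 1)).map fun i => (m2 + i) :: ν)

/-- The base. -/
def base : ℕ := 281474976710656

/-- The number of the partitions of `n` with parts at most `i`. -/
def qq (n i : ℕ) : ℕ := qN / 256 ^ (14 * n + i) % 256

/-- The number of the partitions of the numbers less than `n`. -/
def off (n : ℕ) : ℕ := offN / 65536 ^ n % 65536

/-- The sum of a partition and its position in `P`. -/
def cod : List ℕ → ℕ × ℕ
  | [] => (0, 0)
  | h :: t => ((cod t).1 + h, (cod t).2 + qq ((cod t).1 + h) (h - 1))

/-- The position of a partition in `U`. -/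
def idx (ν : List ℕ) : ℕ := off (cod ν).1 + (cod ν).2

/-- The pairs `cod ν` for `ν` in `strips μ`. -/
def stripsC : List ℕ → List (ℕ × ℕ)
  | [] => [(0, 0)]
  | m1 :: rest => match rest with
    | [] => (0, 0) :: (List.range m1).map (fun i => (i + 1, qq (i + 1) i))
    | m2 :: _ => (stripsC rest).flatMap (fun c => (List.range (m1 - m2 + 1)).map fun i =>
        (c.1 + (m2 + i), c.2 + qq (c.1 + (m2 + i)) (m2 + i - 1)))

/-- The encoded list `strips μ`. -/
def W (μ : List ℕ) : ℕ := ((stripsC μ).map fun c => base ^ (off c.1 + c.2)).sum

/-- The list of the `len` lowest digits, shifted by `2048`. -/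
def decode : ℕ → ℕ → List ℤ
  | 0, _ => []
  | len + 1, N => (((N % base : ℕ) : ℤ) - 2048) :: decode len (N / base)

/-- The entry of the table. -/
def vN (a p q b : ℕ) : ℕ := (((vt.getD a []).getD p []).getD q []).getD b 0

/-- The number of the partitions of `n`. -/
def plen (n : ℕ) : ℕ := off (n + 1) - off n

/-- The vector of the Schur coefficients. -/
def cvec (a p q b : ℕ) : List ℤ := decode (plen (a + p + q + b)) (vN a p q b)

/-- The integer with given digits. -/
def enc : List ℤ → ℤ
  | [] => 0
  | a :: v => a + (base : ℤ) * enc v

/-- The encoded vector of the Schur coefficients. -/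
def vZ (a p q b : ℕ) : ℤ :=
  (vN a p q b : ℤ) - ((2048 * ((base ^ plen (a + p + q + b) - 1) / (base - 1)) : ℕ) : ℤ)

end Pool.Agent.Q125.Monical
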