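import Pool.Agent.Q125.Monical.Main

/-!
# A graph with Schur-positive chromatic symmetric function whose Newton polytope is not saturated
-/

set_option autoImplicit false

open Finset

namespace Pool.Agent.Q125.Monical

/-- The class of a vertex. -/
def cl (v : Fin 13) : ℕ :=
  if v.val < 4 then 0 else if v.val < 6 then 1 else if v.val < 8 then 2 else 3

/-- The blow-up of the path on four vertices with independent sets of sizes `4, 2, 2, 5`. -/
def Gr : SimpleGraph (Fin 13) where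
  Adj u v := adjc cl u v
  symm := ⟨fun _ _ h => Or.symm h⟩
  loopless := ⟨fun _ h => by
    rcases h with h | h <;> omega⟩

theorem cl_lt (v : Fin 13) : cl v < 4 := by
  unfold cl
  split_ifs <;> norm_num

theorem sum_zip (F : YoungDiagram → MvPolynomial ℕ ℤ) (g : List ℕ → MvPolynomial ℕ ℤ)
    (hF : ∀ μ, Good μ → F (D μ) = g μ) : ∀ (v : List ℤ) (L : List (List ℕ)), (∀ c ∈ v, 0 ≤ c) →
    (∀ μ ∈ L, Good μ) →
    ((List.zipWith (fun c μ => Finsupp.single (D μ) c.toNat) v L).sum).sum (fun μ a => a • F μ) =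
      dotR v (L.map g)
  | [], L, _, _ => by simp [dotR_nil_left]
  | c :: v, [], _, _ => by simp [dotR_nil_right]
  | c :: v, μ :: L, hv, hL => by
    rw [List.zipWith_cons_cons, List.sum_cons, List.map_cons, dotR_cons,
      Finsupp.sum_add_index', Finsupp.sum_single_index,
      sum_zip F g hF v L (fun x hx => hv x (by simp [hx])) (fun x hx => hL x (by simp [hx])),
      hF μ (hL μ (by simp))]
    · congr 1
      have hc := hv c (by simp)
      rw [nsmul_eq_mul]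
      congr 1
      have h1 : ((c.toNat : ℕ) : ℤ) = c := Int.toNat_of_nonneg hc
      rw [← Int.cast_natCast, h1]
    · simp
    · intro x
      simp
    · intro x y z
      rw [add_smul]

theorem s_positive (k : ℕ) : ∃ c : YoungDiagram →₀ ℕ,
    (∑ᶠ κ : {κ : Fin 13 → Fin k // ∀ u v, Gr.Adj u v → κ u ≠ κ v},
        ∏ v, (MvPolynomial.X ((κ.1 v : ℕ)) : MvPolynomial ℕ ℤ)) =
      c.sum (fun μ a => a • ∑ᶠ T : {T : SemistandardYoungTableau μ //
          ∀ p ∈ μ.cells, T p.1 p.2 < k},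
        ∏ p ∈ μ.cells, (MvPolynomial.X (T.1 p.1 p.2) : MvPolynomial ℕ ℤ)) := by
  refine ⟨(List.zipWith (fun c μ => Finsupp.single (D μ) c.toNat) (cvec 4 2 2 5) (P 13)).sum, ?_⟩
  have h1 := sum_zip (fun μ => sch μ k) (Sch k) (fun μ hμ => sch_eq k hμ) (cvec 4 2 2 5) (P 13)
    cvec_nonneg (fun μ hμ => (mem_P.1 hμ).1)
  have h2 : (∑ᶠ κ : {κ : Fin 13 → Fin k // ∀ u v, Gr.Adj u v → κ u ≠ κ v},
      ∏ v, (MvPolynomial.X ((κ.1 v : ℕ)) : MvPolynomial ℕ ℤ)) = Z (adjc cl) k univ :=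
    finsum_eq_Z (adjc cl) k
  have h3 := Z_eq_XS cl cl_lt k univ
  have c0 : cnt cl 0 univ = 4 := by decide
  have c1 : cnt cl 1 univ = 2 := by decide
  have c2 : cnt cl 2 univ = 2 := by decide
  have c3 : cnt cl 3 univ = 5 := by decide
  rw [c0, c1, c2, c3, XS_eq k le_rfl le_rfl le_rfl le_rfl] at h3
  rw [h2, h3]
  exact h1.symm

/-- The content of a colouring. -/
noncomputable def content (f : Fin 13 → ℕ) : ℕ →₀ ℕ := ∑ v, Finsupp.single (f v) 1

theorem content_apply (f : Fin 13 → ℕ) (i : ℕ) :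
    content f i = (univ.filter fun v => f v = i).card := by
  rw [content, Finsupp.finsetSum_apply, card_filter]
  refine sum_congr rfl fun v _ => ?_
  rw [Finsupp.single_apply]

theorem prod_X (f : Fin 13 → ℕ) :
    ∏ v, (MvPolynomial.X (f v) : MvPolynomial ℕ ℤ) = MvPolynomial.monomial (content f) 1 := by
  rw [content, MvPolynomial.monomial_sum_one]
  rfl

theorem mem_support_iff (k : ℕ) (β : ℕ →₀ ℕ) :
    β ∈ (∑ᶠ κ : {κ : Fin 13 → Fin k // ∀ u v, Gr.Adj u v → κ u ≠ κ v},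
      ∏ v, (MvPolynomial.X ((κ.1 v : ℕ)) : MvPolynomial ℕ ℤ)).support ↔
    ∃ κ : {κ : Fin 13 → Fin k // ∀ u v, Gr.Adj u v → κ u ≠ κ v},
      content (fun v => (κ.1 v : ℕ)) = β := by
  classical
  rw [finsum_eq_sum_of_fintype, MvPolynomial.mem_support_iff]
  have h1 : ∀ κ : {κ : Fin 13 → Fin k // ∀ u v, Gr.Adj u v → κ u ≠ κ v},
      ∏ v, (MvPolynomial.X ((κ.1 v : ℕ)) : MvPolynomial ℕ ℤ) =
        MvPolynomial.monomial (content fun v => (κ.1 v : ℕ)) 1 := fun κ => prod_X _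
  simp only [h1, MvPolynomial.coeff_sum, MvPolynomial.coeff_monomial]
  rw [Finset.sum_boole]
  constructor
  · intro h
    by_contra hcon
    apply h
    rw [Nat.cast_eq_zero, card_eq_zero, filter_eq_empty_iff]
    intro κ _ hκ
    exact hcon ⟨κ, hκ⟩
  · rintro ⟨κ, hκ⟩ h
    rw [Nat.cast_eq_zero, card_eq_zero, filter_eq_empty_iff] at h
    exact h (mem_univ κ) hκ

/-- The first colouring. -/
def f1 (v : Fin 13) : Fin 3 :=
  if v.val < 4 then 0 else if v.val < 6 then 1 else if v.val < 8 then 2 else 0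

/-- The second colouring. -/
def f2 (v : Fin 13) : Fin 3 :=
  if v.val < 4 then 1 else if v.val < 6 then 0 else if v.val < 8 then 1 else 0

theorem f1_proper : ∀ u v, Gr.Adj u v → f1 u ≠ f1 v := by
  have h : ∀ u v : Fin 13, adjc cl u v → f1 u ≠ f1 v := by decide
  exact h

theorem f2_proper : ∀ u v, Gr.Adj u v → f2 u ≠ f2 v := by
  have h : ∀ u v : Fin 13, adjc cl u v → f2 u ≠ f2 v := by decide
  exact h

/-- The exponent vector `(x, y, z)`. -/
noncomputable def vec (x y z : ℕ) : ℕ →₀ ℕ :=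
  Finsupp.single 0 x + Finsupp.single 1 y + Finsupp.single 2 z

theorem vec_apply (x y z i : ℕ) : vec x y z i =
    if i = 0 then x else if i = 1 then y else if i = 2 then z else 0 := by
  unfold vec
  simp only [Finsupp.add_apply, Finsupp.single_apply]
  rcases i with _ | _ | _ | i
  · simp
  · simp
  · simp
  · simp

theorem content_eq_vec (f : Fin 13 → Fin 3) (x y z : ℕ)
    (h0 : (univ.filter fun v => (f v : ℕ) = 0).card = x)
    (h1 : (univ.filter fun v => (f v : ℕ) = 1).card = y)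
    (h2 : (univ.filter fun v => (f v : ℕ) = 2).card = z) :
    content (fun v => (f v : ℕ)) = vec x y z := by
  ext i
  rw [content_apply, vec_apply]
  rcases i with _ | _ | _ | i
  · simpa using h0
  · simpa using h1
  · simpa using h2
  · rw [if_neg (by omega), if_neg (by omega), if_neg (by omega), card_eq_zero, filter_eq_empty_iff]
    intro v _ h
    have := (f v).2
    omega

theorem not_content (κ : Fin 13 → Fin 3) (hκ : ∀ u v, Gr.Adj u v → κ u ≠ κ v) :
    content (fun v => (κ v : ℕ)) ≠ vec 8 4 1 := by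
  intro h
  let n : ℕ → ℕ → ℕ := fun c i => (univ.filter fun v : Fin 13 => cl v = c ∧ (κ v : ℕ) = i).card
  have hrow : ∀ c, n c 0 + n c 1 + n c 2 = (univ.filter fun v : Fin 13 => cl v = c).card := by
    intro c
    simp only [n, card_filter]
    rw [← sum_add_distrib, ← sum_add_distrib]
    refine sum_congr rfl fun v _ => ?_
    have hv := (κ v).2
    have h3 : (κ v : ℕ) = 0 ∨ (κ v : ℕ) = 1 ∨ (κ v : ℕ) = 2 := by omega
    rcases h3 with h3 | h3 | h3 <;> simp [h3]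
  have hcol : ∀ i, n 0 i + n 1 i + n 2 i + n 3 i =
      (univ.filter fun v : Fin 13 => (κ v : ℕ) = i).card := by
    intro i
    simp only [n, card_filter]
    rw [← sum_add_distrib, ← sum_add_distrib, ← sum_add_distrib]
    refine sum_congr rfl fun v _ => ?_
    have hv := cl_lt v
    have h3 : cl v = 0 ∨ cl v = 1 ∨ cl v = 2 ∨ cl v = 3 := by omega
    rcases h3 with h3 | h3 | h3 | h3 <;> simp [h3]
  have hadj : ∀ c i, n c i = 0 ∨ n (c + 1) i = 0 := by
    intro c i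
    by_contra hcon
    rw [not_or] at hcon
    simp only [n] at hcon
    rw [← Ne, ← Ne, ← Nat.pos_iff_ne_zero, ← Nat.pos_iff_ne_zero, card_pos, card_pos] at hcon
    obtain ⟨⟨u, hu⟩, ⟨v, hv⟩⟩ := hcon
    rw [mem_filter] at hu hv
    refine hκ u v (Or.inl ?_) (Fin.ext ?_)
    · rw [hu.2.1, hv.2.1]
    · rw [hu.2.2, hv.2.2]
  have e0 : (univ.filter fun v : Fin 13 => cl v = 0).card = 4 := by decide
  have e1 : (univ.filter fun v : Fin 13 => cl v = 1).card = 2 := by decide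
  have e2 : (univ.filter fun v : Fin 13 => cl v = 2).card = 2 := by decide
  have e3 : (univ.filter fun v : Fin 13 => cl v = 3).card = 5 := by decide
  have g : ∀ i, (univ.filter fun v : Fin 13 => (κ v : ℕ) = i).card = vec 8 4 1 i := by
    intro i
    rw [← h, content_apply]
  have g0 := g 0
  have g1 := g 1
  have g2 := g 2
  rw [vec_apply] at g0 g1 g2
  simp only [if_true, one_ne_zero, if_false, OfNat.ofNat_ne_zero, OfNat.ofNat_ne_one] at g0 g1 g2
  have r0 := hrow 0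
  have r1 := hrow 1
  have r2 := hrow 2
  have r3 := hrow 3
  have k0 := hcol 0
  have k1 := hcol 1
  have k2 := hcol 2
  have a00 := hadj 0 0
  have a01 := hadj 0 1
  have a02 := hadj 0 2
  have a10 := hadj 1 0
  have a11 := hadj 1 1
  have a12 := hadj 1 2
  have a20 := hadj 2 0
  have a21 := hadj 2 1
  have a22 := hadj 2 2
  simp only [zero_add, Nat.reduceAdd] at a00 a01 a02 a10 a11 a12 a20 a21 a22
  omega

theorem mem_hull : (fun i : ℕ => ((vec 8 4 1 i : ℕ) : ℝ)) ∈ convexHull ℝ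
    ((fun β : ℕ →₀ ℕ => (fun i : ℕ => (β i : ℝ))) ''
      ((∑ᶠ κ : {κ : Fin 13 → Fin 3 // ∀ u v, Gr.Adj u v → κ u ≠ κ v},
        ∏ v, (MvPolynomial.X ((κ.1 v : ℕ)) : MvPolynomial ℕ ℤ)).support : Set (ℕ →₀ ℕ))) := by
  have h1 : (fun i : ℕ => ((vec 9 2 2 i : ℕ) : ℝ)) ∈ convexHull ℝ
      ((fun β : ℕ →₀ ℕ => (fun i : ℕ => (β i : ℝ))) ''
      ((∑ᶠ κ : {κ : Fin 13 → Fin 3 // ∀ u v, Gr.Adj u v → κ u ≠ κ v},
        ∏ v, (MvPolynomial.X ((κ.1 v : ℕ)) : MvPolynomial ℕ ℤ)).support : Set (ℕ →₀ ℕ))) := by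
    apply subset_convexHull
    refine ⟨vec 9 2 2, ?_, rfl⟩
    rw [mem_coe, mem_support_iff]
    refine ⟨⟨f1, f1_proper⟩, content_eq_vec f1 9 2 2 ?_ ?_ ?_⟩
    · decide
    · decide
    · decide
  have h2 : (fun i : ℕ => ((vec 7 6 0 i : ℕ) : ℝ)) ∈ convexHull ℝ
      ((fun β : ℕ →₀ ℕ => (fun i : ℕ => (β i : ℝ))) ''
      ((∑ᶠ κ : {κ : Fin 13 → Fin 3 // ∀ u v, Gr.Adj u v → κ u ≠ κ v},
        ∏ v, (MvPolynomial.X ((κ.1 v : ℕ)) : MvPolynomial ℕ ℤ)).support : Set (ℕ →₀ ℕ))) := by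
    apply subset_convexHull
    refine ⟨vec 7 6 0, ?_, rfl⟩
    rw [mem_coe, mem_support_iff]
    refine ⟨⟨f2, f2_proper⟩, content_eq_vec f2 7 6 0 ?_ ?_ ?_⟩
    · decide
    · decide
    · decide
  have h3 := (convex_convexHull ℝ ((fun β : ℕ →₀ ℕ => (fun i : ℕ => (β i : ℝ))) ''
      ((∑ᶠ κ : {κ : Fin 13 → Fin 3 // ∀ u v, Gr.Adj u v → κ u ≠ κ v},
        ∏ v, (MvPolynomial.X ((κ.1 v : ℕ)) : MvPolynomial ℕ ℤ)).support : Set (ℕ →₀ ℕ)))) h1 h2
    (a := 1 / 2) (b := 1 / 2) (by norm_num) (by norm_num) (by norm_num)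
  have h4 : (fun i : ℕ => ((vec 8 4 1 i : ℕ) : ℝ)) =
      (1 / 2 : ℝ) • (fun i : ℕ => ((vec 9 2 2 i : ℕ) : ℝ)) +
      (1 / 2 : ℝ) • (fun i : ℕ => ((vec 7 6 0 i : ℕ) : ℝ)) := by
    funext i
    simp only [Pi.add_apply, Pi.smul_apply, smul_eq_mul, vec_apply]
    rcases i with _ | _ | _ | i
    · norm_num
    · norm_num
    · norm_num
    · simp
  rw [h4]
  exact h3

theorem not_mem_support : vec 8 4 1 ∉
    (∑ᶠ κ : {κ : Fin 13 → Fin 3 // ∀ u v, Gr.Adj u v → κ u ≠ κ v},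
      ∏ v, (MvPolynomial.X ((κ.1 v : ℕ)) : MvPolynomial ℕ ℤ)).support := by
  rw [mem_support_iff]
  rintro ⟨κ, hκ⟩
  exact not_content κ.1 κ.2 hκ

end Pool.Agent.Q125.Monical
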