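import Pool.Agent.Q125.Monical.Lists

/-!
# The branching rule for Schur polynomials
-/

set_option autoImplicit false

open Finset

namespace Pool.Agent.Q125.Monical

/-- The semistandard Young tableaux of shape `μ` with entries less than `k`. -/
abbrev SS (μ : YoungDiagram) (k : ℕ) : Type :=
  {T : SemistandardYoungTableau μ // ∀ p ∈ μ.cells, T p.1 p.2 < k}

instance finite_SS (μ : YoungDiagram) (k : ℕ) : Finite (SS μ k) := by
  let f : SS μ k → (μ.cells → Fin k) := fun T p => ⟨T.1 p.1.1 p.1.2, T.2 p.1 p.2⟩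
  refine Finite.of_injective f ?_
  intro T T' h
  apply Subtype.ext
  apply SemistandardYoungTableau.ext
  intro i j
  by_cases hij : (i, j) ∈ μ
  · have := congrFun h ⟨(i, j), (YoungDiagram.mem_cells _).2 hij⟩
    simpa [f] using this
  · rw [T.1.zeros hij, T'.1.zeros hij]

/-- The Schur polynomial of `μ` in `k` variables. -/
noncomputable def sch (μ : YoungDiagram) (k : ℕ) : MvPolynomial ℕ ℤ :=
  ∑ᶠ T : SS μ k, ∏ p ∈ μ.cells, (MvPolynomial.X (T.1 p.1 p.2) : MvPolynomial ℕ ℤ)

/-- The Young diagram of a partition. -/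
def D (m : List ℕ) : YoungDiagram :=
  if h : m.Pairwise (· ≥ ·) then YoungDiagram.ofRowLens m h.sortedGE else ⊥

theorem mem_D {m : List ℕ} (hm : Good m) (i j : ℕ) : (i, j) ∈ D m ↔ j < m.getD i 0 := by
  rw [D, dif_pos hm.1, YoungDiagram.mem_ofRowLens]
  simp only [List.getD_eq_getElem?_getD]
  constructor
  · rintro ⟨h, h'⟩
    simpa [List.getElem?_eq_getElem h] using h'
  · intro h
    rcases lt_or_ge i m.length with hi | hi
    · refine ⟨hi, ?_⟩
      simpa [List.getElem?_eq_getElem hi] using h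
    · rw [List.getElem?_eq_none hi] at h
      simp at h

theorem rowLens_D {m : List ℕ} (hm : Good m) : (D m).rowLens = m := by
  rw [D, dif_pos hm.1, YoungDiagram.rowLens_ofRowLens_eq_self]
  exact hm.2

theorem good_rowLens (μ : YoungDiagram) : Good μ.rowLens :=
  ⟨μ.rowLens_sorted.pairwise, fun x hx => μ.pos_of_mem_rowLens x hx⟩

theorem D_rowLens (μ : YoungDiagram) : D μ.rowLens = μ := by
  rw [D, dif_pos (good_rowLens μ).1, YoungDiagram.ofRowLens_to_rowLens_eq_self]

theorem card_D {m : List ℕ} (hm : Good m) : (D m).cells.card = m.sum := by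
  have hd : (D m).cells = YoungDiagram.cellsOfRowLens m := by
    rw [D, dif_pos hm.1]
    rfl
  rw [hd]
  clear hd hm
  induction m with
  | nil => rfl
  | cons a t ih =>
    have h1 : YoungDiagram.cellsOfRowLens (a :: t) = ({0} : Finset ℕ) ×ˢ Finset.range a ∪
        (YoungDiagram.cellsOfRowLens t).map
          (Function.Embedding.prodMap ⟨_, Nat.succ_injective⟩ (Function.Embedding.refl ℕ)) := rfl
    rw [h1, card_union_of_disjoint, card_map, ih, card_product]
    · simp
    · rw [disjoint_left]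
      intro x hx hx'
      simp only [mem_product, mem_singleton, mem_range, mem_map] at hx hx'
      obtain ⟨y, -, rfl⟩ := hx'
      simp at hx

/-- The part of a tableau with entries less than `k`. -/
def sub {μ : YoungDiagram} (k : ℕ) (T : SemistandardYoungTableau μ) : YoungDiagram where
  cells := μ.cells.filter fun p => T p.1 p.2 < k
  isLowerSet := by
    rintro ⟨i, j⟩ ⟨i', j'⟩ hle h
    simp only [coe_filter, Set.mem_ofPred_eq, YoungDiagram.mem_cells] at h ⊢
    have hi : i' ≤ i := hle.1
    have hj : j' ≤ j := hle.2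
    refine ⟨μ.up_left_mem hi hj h.1, ?_⟩
    have h1 : T i' j' ≤ T i' j := T.row_weak_of_le hj (μ.up_left_mem hi le_rfl h.1)
    have h2 : T i' j ≤ T i j := T.col_weak hi h.1
    omega

theorem mem_sub {μ : YoungDiagram} (k : ℕ) (T : SemistandardYoungTableau μ) (i j : ℕ) :
    (i, j) ∈ sub k T ↔ (i, j) ∈ μ ∧ T i j < k := by
  rw [← YoungDiagram.mem_cells, sub]
  simp

/-- The restriction of a tableau. -/
def res {μ ν : YoungDiagram} (h : ν ≤ μ) (T : SemistandardYoungTableau μ) :
    SemistandardYoungTableau ν where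
  entry i j := if (i, j) ∈ ν then T i j else 0
  row_weak' := by
    intro i j1 j2 hj hm
    rw [if_pos hm, if_pos (ν.up_left_mem le_rfl hj.le hm)]
    exact T.row_weak hj (h hm)
  col_strict' := by
    intro i1 i2 j hi hm
    rw [if_pos hm, if_pos (ν.up_left_mem hi.le le_rfl hm)]
    exact T.col_strict hi (h hm)
  zeros' := by
    intro i j hm
    rw [if_neg hm]

theorem res_apply {μ ν : YoungDiagram} (h : ν ≤ μ) (T : SemistandardYoungTableau μ) (i j : ℕ) :
    res h T i j = if (i, j) ∈ ν then T i j else 0 := rfl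

/-- The extension of a tableau by the entries `k`. -/
def ext {μ ν : YoungDiagram} (h : ν ≤ μ) (hs : ∀ i j, (i, j) ∉ ν → (i + 1, j) ∉ μ) (k : ℕ)
    (T : SemistandardYoungTableau ν) (hT : ∀ p ∈ ν.cells, T p.1 p.2 < k) :
    SemistandardYoungTableau μ where
  entry i j := if (i, j) ∈ ν then T i j else if (i, j) ∈ μ then k else 0
  row_weak' := by
    intro i j1 j2 hj hm
    by_cases h2 : (i, j2) ∈ ν
    · rw [if_pos h2, if_pos (ν.up_left_mem le_rfl hj.le h2)]
      exact T.row_weak hj h2
    · rw [if_neg h2, if_pos hm]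
      by_cases h1 : (i, j1) ∈ ν
      · rw [if_pos h1]
        exact (hT (i, j1) ((YoungDiagram.mem_cells _).2 h1)).le
      · rw [if_neg h1, if_pos (μ.up_left_mem le_rfl hj.le hm)]
  col_strict' := by
    intro i1 i2 j hi hm
    by_cases h2 : (i2, j) ∈ ν
    · rw [if_pos h2, if_pos (ν.up_left_mem hi.le le_rfl h2)]
      exact T.col_strict hi h2
    · have h1 : (i1, j) ∈ ν := by
        by_contra h1
        exact hs i1 j h1 (μ.up_left_mem (Nat.succ_le_of_lt hi) le_rfl hm)
      rw [if_neg h2, if_pos hm, if_pos h1]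
      exact hT (i1, j) ((YoungDiagram.mem_cells _).2 h1)
  zeros' := by
    intro i j hm
    rw [if_neg (fun h' => hm (h h')), if_neg hm]

theorem ext_apply {μ ν : YoungDiagram} (h : ν ≤ μ) (hs : ∀ i j, (i, j) ∉ ν → (i + 1, j) ∉ μ) (k : ℕ)
    (T : SemistandardYoungTableau ν) (hT : ∀ p ∈ ν.cells, T p.1 p.2 < k) (i j : ℕ) :
    ext h hs k T hT i j = if (i, j) ∈ ν then T i j else if (i, j) ∈ μ then k else 0 := rfl

/-- The sum over the tableaux in which the entries less than `k` form the diagram `ν`. -/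
theorem sum_fiber {μ ν : YoungDiagram} (h : ν ≤ μ) (hs : ∀ i j, (i, j) ∉ ν → (i + 1, j) ∉ μ)
    (k : ℕ) [Fintype (SS μ (k + 1))] [Fintype (SS ν k)]
    [DecidablePred fun T : SS μ (k + 1) => sub k T.1 = ν] :
    ∑ T ∈ (univ : Finset (SS μ (k + 1))).filter (fun T => sub k T.1 = ν),
      ∏ p ∈ μ.cells, (MvPolynomial.X (T.1 p.1 p.2) : MvPolynomial ℕ ℤ) =
    MvPolynomial.X k ^ (μ.cells.card - ν.cells.card) *
      ∑ T : SS ν k, ∏ p ∈ ν.cells, (MvPolynomial.X (T.1 p.1 p.2) : MvPolynomial ℕ ℤ) := by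
  rw [mul_sum]
  have hsubset : ν.cells ⊆ μ.cells := h
  refine Finset.sum_bij' (fun T hT => (⟨res h T.1, ?_⟩ : SS ν k))
    (fun T _ => (⟨ext h hs k T.1 T.2, ?_⟩ : SS μ (k + 1))) ?_ ?_ ?_ ?_ ?_
  · rintro ⟨i, j⟩ hp
    have hp' : (i, j) ∈ ν := (YoungDiagram.mem_cells _).1 hp
    rw [res_apply, if_pos hp']
    rw [mem_filter] at hT
    rw [← hT.2, mem_sub] at hp'
    exact hp'.2
  · rintro ⟨i, j⟩ hp
    rw [ext_apply]
    have hp' : (i, j) ∈ μ := (YoungDiagram.mem_cells _).1 hp
    by_cases hν : (i, j) ∈ ν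
    · rw [if_pos hν]
      exact (T.2 (i, j) ((YoungDiagram.mem_cells _).2 hν)).trans (Nat.lt_succ_self k)
    · rw [if_neg hν, if_pos hp']
      exact Nat.lt_succ_self k
  · intro T _
    exact mem_univ _
  · intro T _
    rw [mem_filter]
    refine ⟨mem_univ _, ?_⟩
    apply SetLike.ext
    rintro ⟨i, j⟩
    rw [mem_sub, ext_apply]
    constructor
    · rintro ⟨h1, h2⟩
      by_contra hν
      rw [if_neg hν, if_pos h1] at h2
      exact lt_irrefl _ h2
    · intro hν
      rw [if_pos hν]
      exact ⟨h hν, T.2 (i, j) ((YoungDiagram.mem_cells _).2 hν)⟩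
  · intro T hT
    rw [mem_filter] at hT
    apply Subtype.ext
    apply SemistandardYoungTableau.ext
    intro i j
    show (if (i, j) ∈ ν then res h T.1 i j else if (i, j) ∈ μ then k else 0) = T.1 i j
    rw [res_apply]
    by_cases hν : (i, j) ∈ ν
    · rw [if_pos hν, if_pos hν]
    · rw [if_neg hν]
      by_cases hμ : (i, j) ∈ μ
      · rw [if_pos hμ]
        have h1 := T.2 (i, j) ((YoungDiagram.mem_cells _).2 hμ)
        have h2 : ¬ T.1 i j < k := by
          intro h3
          apply hν
          rw [← hT.2, mem_sub]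
          exact ⟨hμ, h3⟩
        have h1' : T.1 i j < k + 1 := h1
        omega
      · rw [if_neg hμ, T.1.zeros hμ]
  · intro T _
    apply Subtype.ext
    apply SemistandardYoungTableau.ext
    intro i j
    show res h (ext h hs k T.1 T.2) i j = T.1 i j
    rw [res_apply, ext_apply]
    by_cases hν : (i, j) ∈ ν
    · rw [if_pos hν, if_pos hν]
    · rw [if_neg hν, T.1.zeros hν]
  · intro T hT
    rw [mem_filter] at hT
    rw [← prod_sdiff hsubset]
    congr 1
    · rw [← card_sdiff_of_subset hsubset, ← prod_const]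
      refine prod_congr rfl ?_
      rintro ⟨i, j⟩ hp
      rw [mem_sdiff, YoungDiagram.mem_cells, YoungDiagram.mem_cells] at hp
      have h1 : T.1 i j < k + 1 := T.2 (i, j) ((YoungDiagram.mem_cells _).2 hp.1)
      have h2 : ¬ T.1 i j < k := by
        intro h3
        apply hp.2
        rw [← hT.2, mem_sub]
        exact ⟨hp.1, h3⟩
      have h3 : T.1 i j = k := by omega
      simp only [h3]
    · refine prod_congr rfl ?_
      rintro ⟨i, j⟩ hp
      show _ = MvPolynomial.X (res h T.1 i j)
      rw [res_apply, if_pos ((YoungDiagram.mem_cells _).1 hp)]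

theorem rowLen_eq {m : List ℕ} (hm : Good m) (i : ℕ) : (D m).rowLen i = m.getD i 0 := by
  have h1 : ∀ j, j < (D m).rowLen i ↔ j < m.getD i 0 := fun j => by
    rw [← YoungDiagram.mem_iff_lt_rowLen, mem_D hm]
  have h2 := h1 ((D m).rowLen i)
  have h3 := h1 (m.getD i 0)
  omega

theorem D_le {m n : List ℕ} (hm : Good m) (hn : n ∈ strips m) : D n ≤ D m := by
  obtain ⟨hg, h⟩ := (mem_strips hm).1 hn
  rintro ⟨i, j⟩ hij
  rw [mem_D hg] at hij
  rw [mem_D hm]
  exact hij.trans_le (h i).2

theorem D_strip {m n : List ℕ} (hm : Good m) (hn : n ∈ strips m) (i j : ℕ) (hij : (i, j) ∉ D n) :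
    (i + 1, j) ∉ D m := by
  obtain ⟨hg, h⟩ := (mem_strips hm).1 hn
  rw [mem_D hg] at hij
  rw [mem_D hm]
  have := (h i).1
  omega

theorem sub_mem {m : List ℕ} (hm : Good m) (k : ℕ) (T : SS (D m) (k + 1)) :
    (sub k T.1).rowLens ∈ strips m := by
  rw [mem_strips hm]
  refine ⟨good_rowLens _, ?_⟩
  intro i
  have h1 : (sub k T.1).rowLens.getD i 0 = (sub k T.1).rowLen i := by
    rw [← rowLen_eq (good_rowLens _), D_rowLens]
  rw [h1, ← rowLen_eq hm, ← rowLen_eq hm]
  constructor
  · by_contra hlt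
    rw [not_le] at hlt
    have h2 : (i + 1, (sub k T.1).rowLen i) ∈ D m := YoungDiagram.mem_iff_lt_rowLen.2 hlt
    have h3 : (i, (sub k T.1).rowLen i) ∈ D m := (D m).up_left_mem (Nat.le_succ i) le_rfl h2
    have h4 : (i, (sub k T.1).rowLen i) ∉ sub k T.1 := by
      rw [YoungDiagram.mem_iff_lt_rowLen]
      exact lt_irrefl _
    rw [mem_sub] at h4
    have h5 : k ≤ T.1 i ((sub k T.1).rowLen i) := by
      by_contra h6
      exact h4 ⟨h3, not_le.1 h6⟩
    have h6 : T.1 i ((sub k T.1).rowLen i) < T.1 (i + 1) ((sub k T.1).rowLen i) :=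
      T.1.col_strict (Nat.lt_succ_self i) h2
    have h7 : T.1 (i + 1) ((sub k T.1).rowLen i) < k + 1 :=
      T.2 (i + 1, (sub k T.1).rowLen i) ((YoungDiagram.mem_cells _).2 h2)
    omega
  · by_contra hlt
    rw [not_le] at hlt
    have h2 : (i, (D m).rowLen i) ∈ sub k T.1 := YoungDiagram.mem_iff_lt_rowLen.2 hlt
    rw [mem_sub] at h2
    have := YoungDiagram.mem_iff_lt_rowLen.1 h2.1
    exact lt_irrefl _ this

/-- The branching rule. -/
theorem sch_succ {m : List ℕ} (hm : Good m) (k : ℕ) : sch (D m) (k + 1) =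
    ((strips m).map fun n => MvPolynomial.X k ^ (m.sum - n.sum) * sch (D n) k).sum := by
  classical
  rw [← List.sum_toFinset _ (strips_nodup m)]
  let _ : Fintype (SS (D m) (k + 1)) := Fintype.ofFinite _
  rw [sch, finsum_eq_sum_of_fintype]
  rw [← Finset.sum_fiberwise_of_maps_to (s := univ) (t := (strips m).toFinset)
    (g := fun T : SS (D m) (k + 1) => (sub k T.1).rowLens)
    (fun T _ => List.mem_toFinset.2 (sub_mem hm k T))]
  refine Finset.sum_congr rfl ?_
  intro n hn
  rw [List.mem_toFinset] at hn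
  have hg := ((mem_strips hm).1 hn).1
  let _ : Fintype (SS (D n) k) := Fintype.ofFinite _
  have h1 : ((univ : Finset (SS (D m) (k + 1))).filter fun T => (sub k T.1).rowLens = n) =
      (univ : Finset (SS (D m) (k + 1))).filter fun T => sub k T.1 = D n := by
    ext T
    simp only [mem_filter, mem_univ, true_and]
    constructor
    · intro h
      rw [← h, D_rowLens]
    · intro h
      rw [h, rowLens_D hg]
  rw [h1, sum_fiber (D_le hm hn) (D_strip hm hn), sch, finsum_eq_sum_of_fintype, card_D hm, card_D hg]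

theorem sch_zero {m : List ℕ} (hm : Good m) : sch (D m) 0 = if m = [] then 1 else 0 := by
  classical
  let _ : Fintype (SS (D m) 0) := Fintype.ofFinite _
  rw [sch, finsum_eq_sum_of_fintype]
  split_ifs with h
  · subst h
    have hc : (D []).cells = ∅ := by
      rw [← Finset.card_eq_zero, card_D hm]
      rfl
    have : Fintype.card (SS (D []) 0) = 1 := by
      rw [Fintype.card_eq_one_iff]
      refine ⟨⟨default, by rw [hc]; simp⟩, ?_⟩
      intro T
      apply Subtype.ext
      apply SemistandardYoungTableau.ext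
      intro i j
      have hij : (i, j) ∉ D [] := by
        rw [← YoungDiagram.mem_cells, hc]
        simp
      rw [T.1.zeros hij, SemistandardYoungTableau.zeros _ hij]
    have h3 : ∀ T : SS (D []) 0, ∏ p ∈ (D []).cells,
        (MvPolynomial.X (T.1 p.1 p.2) : MvPolynomial ℕ ℤ) = 1 := by
      intro T
      apply Finset.prod_eq_one
      intro p hp
      rw [hc] at hp
      simp at hp
    rw [Finset.sum_congr rfl fun T _ => h3 T]
    simp [this]
  · apply Finset.sum_eq_zero
    intro T _
    exfalso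
    have h2 : (D m).cells.Nonempty := by
      rw [← Finset.card_pos, card_D hm]
      cases m with
      | nil => exact absurd rfl h
      | cons a t =>
        have := (good_cons.1 hm).1
        simp
        omega
    obtain ⟨p, hp⟩ := h2
    exact absurd (T.2 p hp) (Nat.not_lt_zero _)

/-- The Schur polynomial by the branching rule. -/
noncomputable def Sch : ℕ → List ℕ → MvPolynomial ℕ ℤ
  | 0, m => if m = [] then 1 else 0
  | k + 1, m => ((strips m).map fun n => MvPolynomial.X k ^ (m.sum - n.sum) * Sch k n).sum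

theorem sch_eq (k : ℕ) : ∀ {m : List ℕ}, Good m → sch (D m) k = Sch k m := by
  induction k with
  | zero =>
    intro m hm
    rw [sch_zero hm]
    rfl
  | succ k ih =>
    intro m hm
    rw [sch_succ hm, Sch]
    congr 1
    refine List.map_congr_left ?_
    intro n hn
    rw [ih ((mem_strips hm).1 hn).1]

end Pool.Agent.Q125.Monical
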