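import Pool.Agent.Q125.Monical.Check
import Pool.Agent.Q125.Monical.Schur

/-!
# The Schur expansions of the chromatic polynomials of the blow-ups
-/

set_option autoImplicit false

open Finset

namespace Pool.Agent.Q125.Monical

/-- `∑ c * x`. -/
def dotR {A : Type} [CommRing A] : List ℤ → List A → A
  | c :: v, x :: xs => (c : A) * x + dotR v xs
  | _, _ => 0

theorem dotR_nil_right {A : Type} [CommRing A] (v : List ℤ) : dotR v ([] : List A) = 0 := by
  cases v <;> rfl

theorem dotR_nil_left {A : Type} [CommRing A] (L : List A) : dotR [] L = 0 := by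
  cases L <;> rfl

theorem dotR_cons {A : Type} [CommRing A] (c : ℤ) (v : List ℤ) (x : A) (xs : List A) :
    dotR (c :: v) (x :: xs) = (c : A) * x + dotR v xs := rfl

theorem dotL_eq : ∀ (v : List ℤ) (ws : List ℕ), dotL v ws = dotR v (ws.map (Nat.cast : ℕ → ℤ))
  | [], ws => by cases ws <;> rfl
  | c :: v, [] => rfl
  | c :: v, w :: ws => by
    rw [dotL, List.map_cons, dotR_cons, dotL_eq v ws]
    simp

/-- The indicator of a list. -/
def dl (ν μ : List ℕ) : ℤ := if μ = ν then 1 else 0

theorem dotR_sum {A : Type} [CommRing A] (s : Finset (List ℕ)) (c : List ℕ → List ℕ → ℤ)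
    (g : List ℕ → A) : ∀ (v : List ℤ) (L : List (List ℕ)),
    dotR v (L.map fun μ => ∑ ν ∈ s, (c ν μ : A) * g ν) =
      ∑ ν ∈ s, ((dotR v (L.map (c ν)) : ℤ) : A) * g ν
  | [], L => by simp [dotR_nil_left]
  | a :: v, [] => by simp [dotR_nil_right]
  | a :: v, μ :: L => by
    simp only [List.map_cons, dotR_cons]
    rw [dotR_sum s c g v L, mul_sum, ← sum_add_distrib]
    refine sum_congr rfl fun ν _ => ?_
    push_cast
    ring

theorem dotR_congr {A : Type} [CommRing A] (v : List ℤ) (L : List (List ℕ)) (g h : List ℕ → A)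
    (H : ∀ μ ∈ L, g μ = h μ) : dotR v (L.map g) = dotR v (L.map h) := by
  rw [List.map_congr_left H]

theorem expand_one {A : Type} [CommRing A] (s : Finset (List ℕ)) (g : List ℕ → A) (μ : List ℕ)
    (hμ : μ ∈ s) : g μ = ∑ ν ∈ s, (dl ν μ : A) * g ν := by
  rw [Finset.sum_eq_single μ]
  · simp [dl]
  · intro ν _ hν
    rw [dl, if_neg (Ne.symm hν)]
    simp
  · intro h
    exact absurd hμ h

theorem expand_list {A : Type} [CommRing A] (s : Finset (List ℕ)) (g : List ℕ → A) :
    ∀ L : List (List ℕ), (∀ μ ∈ L, μ ∈ s) →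
    (L.map g).sum = ∑ ν ∈ s, (((L.map (dl ν)).sum : ℤ) : A) * g ν
  | [], _ => by simp
  | μ :: L, h => by
    rw [List.map_cons, List.sum_cons, expand_one s g μ (h μ (by simp)),
      expand_list s g L fun ν hν => h ν (by simp [hν]), ← sum_add_distrib]
    refine sum_congr rfl fun ν _ => ?_
    rw [List.map_cons, List.sum_cons]
    push_cast
    ring

/-- The coefficient on the side of the horizontal strips. -/
def cf1 (a p q b : ℕ) (ν : List ℕ) : ℤ :=
  dotR (cvec a p q b) ((P (a + p + q + b)).map fun μ => ((strips μ).map (dl ν)).sum)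

/-- The coefficient on the side of the stable sets. -/
def cf2 (a p q b : ℕ) (ν : List ℕ) : ℤ :=
  ∑ t ∈ T a p q b, (mult a p q b t : ℤ) *
    dotR (cvec (a - t.1) (p - t.2.1) (q - t.2.2.1) (b - t.2.2.2))
      ((P ((a - t.1) + (p - t.2.1) + (q - t.2.2.1) + (b - t.2.2.2))).map (dl ν))

theorem P_subset_U {n : ℕ} (hn : n ≤ 13) {μ : List ℕ} (hμ : μ ∈ P n) : μ ∈ U := by
  rw [mem_U]
  rw [mem_P] at hμ
  exact ⟨hμ.1, by omega⟩

theorem F1_eq {A : Type} [CommRing A] (g : List ℕ → A) (a p q b : ℕ) (hn : a + p + q + b ≤ 13) :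
    dotR (cvec a p q b) ((P (a + p + q + b)).map fun μ => ((strips μ).map g).sum) =
      ∑ ν ∈ U.toFinset, (cf1 a p q b ν : A) * g ν := by
  unfold cf1
  rw [← dotR_sum U.toFinset (fun ν μ => ((strips μ).map (dl ν)).sum) g]
  refine dotR_congr _ _ _ _ fun μ hμ => ?_
  refine expand_list U.toFinset g (strips μ) fun ν hν => ?_
  rw [List.mem_toFinset]
  exact strips_subset_U (P_subset_U hn hμ) hν

theorem F2_eq {A : Type} [CommRing A] (g : List ℕ → A) (a p q b : ℕ) (hn : a + p + q + b ≤ 13) :
    ∑ t ∈ T a p q b, (mult a p q b t : A) *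
      dotR (cvec (a - t.1) (p - t.2.1) (q - t.2.2.1) (b - t.2.2.2))
        ((P ((a - t.1) + (p - t.2.1) + (q - t.2.2.1) + (b - t.2.2.2))).map g) =
      ∑ ν ∈ U.toFinset, (cf2 a p q b ν : A) * g ν := by
  have h : ∀ t : ℕ × ℕ × ℕ × ℕ,
      dotR (cvec (a - t.1) (p - t.2.1) (q - t.2.2.1) (b - t.2.2.2))
        ((P ((a - t.1) + (p - t.2.1) + (q - t.2.2.1) + (b - t.2.2.2))).map g) =
      ∑ ν ∈ U.toFinset, ((dotR (cvec (a - t.1) (p - t.2.1) (q - t.2.2.1) (b - t.2.2.2))
        ((P ((a - t.1) + (p - t.2.1) + (q - t.2.2.1) + (b - t.2.2.2))).map (dl ν)) : ℤ) : A) *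
          g ν := by
    intro t
    rw [← dotR_sum U.toFinset dl g]
    refine dotR_congr _ _ _ _ fun μ hμ => ?_
    refine expand_one U.toFinset g μ ?_
    rw [List.mem_toFinset]
    exact P_subset_U (by omega) hμ
  simp only [h, cf2, mul_sum]
  rw [sum_comm]
  refine sum_congr rfl fun ν _ => ?_
  push_cast
  rw [sum_mul]
  refine sum_congr rfl fun t _ => ?_
  ring

theorem U_nodup : U.Nodup := by
  apply List.Nodup.of_map idx
  rw [U_idx]
  exact List.nodup_range'

/-- The weight. -/
def wgt (ν : List ℕ) : ℤ := (base : ℤ) ^ idx ν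

theorem dotR_wgt : ∀ (v : List ℤ) (L : List (List ℕ)) (s : ℕ),
    L.map idx = List.range' s v.length → dotR v (L.map wgt) = (base : ℤ) ^ s * enc v
  | [], L, s, h => by
    simp only [List.length_nil, List.range'_zero, List.map_eq_nil_iff] at h
    rw [h]
    simp [dotR_nil_left, enc]
  | a :: v, [], s, h => by simp [List.range'_succ] at h
  | a :: v, ν :: L, s, h => by
    rw [List.length_cons, List.range'_succ, List.map_cons, List.cons.injEq] at h
    rw [List.map_cons, dotR_cons, dotR_wgt v L (s + 1) h.2, wgt, h.1, enc]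
    simp only [Int.cast_id]
    ring

theorem sum_wgt (Dd : List ℕ → ℤ) : ∀ (L : List (List ℕ)) (s : ℕ),
    L.map idx = List.range' s L.length →
    (L.map fun ν => Dd ν * wgt ν).sum = (base : ℤ) ^ s * enc (L.map Dd)
  | [], s, _ => by simp [enc]
  | ν :: L, s, h => by
    rw [List.length_cons, List.range'_succ, List.map_cons, List.cons.injEq] at h
    rw [List.map_cons, List.sum_cons, sum_wgt Dd L (s + 1) h.2, wgt, h.1, List.map_cons, enc]
    ring

theorem enc_eq_zero : ∀ v : List ℤ, (∀ x ∈ v, |x| < (base : ℤ)) → enc v = 0 → ∀ x ∈ v, x = 0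
  | [], _, _ => by simp
  | a :: v, h, h0 => by
    rw [enc] at h0
    have ha := h a (by simp)
    have hb : (0 : ℤ) < (base : ℤ) := by
      norm_num [base]
    have hv : enc v = 0 := by
      by_contra hne
      have h1 : (1 : ℤ) ≤ |enc v| := Int.one_le_abs hne
      have h2 : a = - ((base : ℤ) * enc v) := by linarith
      rw [h2, abs_neg, abs_mul, abs_of_pos hb] at ha
      nlinarith
    have ha' : a = 0 := by
      rw [hv] at h0
      linarith
    intro x hx
    rw [List.mem_cons] at hx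
    rcases hx with rfl | hx
    · exact ha'
    · exact enc_eq_zero v (fun y hy => h y (by simp [hy])) hv x hx

theorem length_decode : ∀ len N : ℕ, (decode len N).length = len
  | 0, N => rfl
  | len + 1, N => by rw [decode, List.length_cons, length_decode len]

theorem length_cvec (a p q b : ℕ) : (cvec a p q b).length = plen (a + p + q + b) := by
  rw [cvec, length_decode]

theorem stripsC_eq : ∀ μ : List ℕ, stripsC μ = (strips μ).map cod
  | [] => rfl
  | [m1] => by
    show (0, 0) :: (List.range m1).map (fun i => (i + 1, qq (i + 1) i)) = _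
    rw [strips_single, List.map_cons, List.map_map]
    congr 1
    refine List.map_congr_left fun i _ => ?_
    simp [cod]
  | m1 :: m2 :: rest => by
    have h1 : stripsC (m1 :: m2 :: rest) = (stripsC (m2 :: rest)).flatMap (fun c =>
        (List.range (m1 - m2 + 1)).map fun i =>
          (c.1 + (m2 + i), c.2 + qq (c.1 + (m2 + i)) (m2 + i - 1))) := rfl
    rw [h1, stripsC_eq (m2 :: rest), strips_cons_cons, List.map_flatMap, List.flatMap_map]
    congr 1
    funext ν
    rw [List.map_map]
    rfl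

theorem W_eq (μ : List ℕ) : (W μ : ℤ) = ((strips μ).map wgt).sum := by
  rw [W, stripsC_eq, List.map_map]
  generalize strips μ = L
  induction L with
  | nil => rfl
  | cons ν L ih =>
    rw [List.map_cons, List.sum_cons, List.map_cons, List.sum_cons, ← ih]
    push_cast
    rfl

theorem count_le_one (ν : List ℕ) : ∀ L : List (List ℕ), L.Nodup →
    |(L.map (dl ν)).sum| ≤ 1
  | [], _ => by simp
  | μ :: L, h => by
    rw [List.nodup_cons] at h
    rw [List.map_cons, List.sum_cons]
    by_cases hμ : μ = ν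
    · have h0 : (L.map (dl ν)).sum = 0 := by
        have : ∀ x ∈ L, dl ν x = 0 := fun x hx => by
          rw [dl, if_neg]
          rintro rfl
          exact h.1 (hμ ▸ hx)
        rw [List.map_congr_left this]
        simp
      rw [h0, dl, if_pos hμ]
      simp
    · rw [dl, if_neg hμ, zero_add]
      exact count_le_one ν L h.2

theorem dotR_le (c : List ℕ → ℤ) : ∀ (v : List ℤ) (L : List (List ℕ)), (∀ μ ∈ L, |c μ| ≤ 1) →
    |dotR v (L.map c)| ≤ (absum v : ℤ)
  | [], L, _ => by simp [dotR_nil_left, absum]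
  | a :: v, [], _ => by
    rw [List.map_nil, dotR_nil_right]
    simp
  | a :: v, μ :: L, h => by
    rw [List.map_cons, dotR_cons, absum]
    have h1 := dotR_le c v L fun ν hν => h ν (by simp [hν])
    have h2 := h μ (by simp)
    have h3 : |(a : ℤ) * c μ| ≤ |a| := by
      rw [abs_mul]
      nlinarith [abs_nonneg a]
    push_cast
    calc |((a : ℤ) : ℤ) * c μ + dotR v (L.map c)| ≤ |(a : ℤ) * c μ| + |dotR v (L.map c)| := by
          simpa using abs_add_le ((a : ℤ) * c μ) (dotR v (L.map c))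
      _ ≤ |a| + (absum v : ℤ) := by linarith

theorem sum_mult_le (a p q b : ℕ) : ∑ t ∈ T a p q b, mult a p q b t ≤ 2 ^ (a + p + q + b) := by
  calc ∑ t ∈ T a p q b, mult a p q b t
      ≤ ∑ t ∈ (range (a + 1) ×ˢ range (p + 1) ×ˢ range (q + 1) ×ˢ range (b + 1)),
        mult a p q b t := sum_le_sum_of_subset (filter_subset _ _)
    _ = (∑ i ∈ range (a + 1), a.choose i) * ((∑ j ∈ range (p + 1), p.choose j) *
        ((∑ l ∈ range (q + 1), q.choose l) * ∑ m ∈ range (b + 1), b.choose m)) := by
        simp only [mult, sum_product]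
        rw [sum_mul]
        refine sum_congr rfl fun i _ => ?_
        rw [sum_mul, mul_sum]
        refine sum_congr rfl fun j _ => ?_
        rw [sum_mul, mul_sum, mul_sum]
        refine sum_congr rfl fun l _ => ?_
        rw [mul_sum, mul_sum, mul_sum]
        refine sum_congr rfl fun m _ => ?_
        ring
    _ = 2 ^ (a + p + q + b) := by
        simp only [Nat.sum_range_choose]
        ring

theorem cf1_le {a p q b : ℕ} (ha : a ≤ 4) (hp : p ≤ 2) (hq : q ≤ 2) (hb : b ≤ 5) (ν : List ℕ) :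
    |cf1 a p q b ν| ≤ 100000000 := by
  have h1 := (table_sound ha hp hq hb).2
  have h2 := dotR_le (fun μ => ((strips μ).map (dl ν)).sum) (cvec a p q b) (P (a + p + q + b))
    fun μ _ => count_le_one ν _ (strips_nodup μ)
  unfold cf1
  have h3 : ((absum (cvec a p q b) : ℕ) : ℤ) ≤ 100000000 := by exact_mod_cast h1
  linarith

theorem cf2_le {a p q b : ℕ} (ha : a ≤ 4) (hp : p ≤ 2) (hq : q ≤ 2) (hb : b ≤ 5) (ν : List ℕ) :
    |cf2 a p q b ν| ≤ 819200000000 := by
  have h1 : ∀ t ∈ T a p q b, |(mult a p q b t : ℤ) *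
      dotR (cvec (a - t.1) (p - t.2.1) (q - t.2.2.1) (b - t.2.2.2))
        ((P ((a - t.1) + (p - t.2.1) + (q - t.2.2.1) + (b - t.2.2.2))).map (dl ν))| ≤
      (mult a p q b t : ℤ) * 100000000 := by
    intro t _
    have h2 := (table_sound (a := a - t.1) (p := p - t.2.1) (q := q - t.2.2.1) (b := b - t.2.2.2)
      (by omega) (by omega) (by omega) (by omega)).2
    have h3 := dotR_le (dl ν) (cvec (a - t.1) (p - t.2.1) (q - t.2.2.1) (b - t.2.2.2))
      (P ((a - t.1) + (p - t.2.1) + (q - t.2.2.1) + (b - t.2.2.2))) (by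
        intro μ _
        rw [dl]
        split_ifs <;> simp)
    rw [abs_mul, Nat.abs_cast]
    refine mul_le_mul_of_nonneg_left ?_ (by positivity)
    have h4 : ((absum (cvec (a - t.1) (p - t.2.1) (q - t.2.2.1) (b - t.2.2.2)) : ℕ) : ℤ) ≤
      100000000 := by exact_mod_cast h2
    linarith
  unfold cf2
  refine (abs_sum_le_sum_abs _ _).trans ((sum_le_sum h1).trans ?_)
  rw [← sum_mul]
  have h5 := sum_mult_le a p q b
  have h6 : (2 : ℕ) ^ (a + p + q + b) ≤ 2 ^ 13 := Nat.pow_le_pow_right (by norm_num) (by omega)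
  have h7 : (∑ t ∈ T a p q b, mult a p q b t) ≤ 8192 := by
    refine h5.trans (h6.trans ?_)
    norm_num
  have h8 : ((∑ t ∈ T a p q b, (mult a p q b t : ℤ))) ≤ 8192 := by exact_mod_cast h7
  linarith

/-- The two coefficients agree. -/
theorem cf_eq {a p q b : ℕ} (ha : a ≤ 4) (hp : p ≤ 2) (hq : q ≤ 2) (hb : b ≤ 5) :
    ∀ ν ∈ U.toFinset, cf1 a p q b ν = cf2 a p q b ν := by
  have hn : a + p + q + b ≤ 13 := by omega
  have h1 := F1_eq wgt a p q b hn
  have h2 := F2_eq wgt a p q b hn
  have h3 : dotR (cvec a p q b) ((P (a + p + q + b)).map fun μ => ((strips μ).map wgt).sum) =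
      rhsN a p q b := by
    rw [← lev_sound ha hp hq hb, dotL_eq, List.map_map]
    refine dotR_congr _ _ _ _ fun μ _ => ?_
    exact (W_eq μ).symm
  have h4 : ∑ t ∈ T a p q b, (mult a p q b t : ℤ) *
      dotR (cvec (a - t.1) (p - t.2.1) (q - t.2.2.1) (b - t.2.2.2))
        ((P ((a - t.1) + (p - t.2.1) + (q - t.2.2.1) + (b - t.2.2.2))).map wgt) =
      rhsN a p q b := by
    rw [rhsN_eq]
    refine sum_congr rfl fun t _ => ?_
    rw [dotR_wgt _ _ (off ((a - t.1) + (p - t.2.1) + (q - t.2.2.1) + (b - t.2.2.2)))]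
    · rw [(table_sound (a := a - t.1) (p := p - t.2.1) (q := q - t.2.2.1) (b := b - t.2.2.2)
        (by omega) (by omega) (by omega) (by omega)).1]
    · rw [length_cvec]
      exact P_idx (by omega)
  have h5 : ∑ ν ∈ U.toFinset, (cf1 a p q b ν - cf2 a p q b ν) * wgt ν = 0 := by
    have h6 : ∑ ν ∈ U.toFinset, cf1 a p q b ν * wgt ν = ∑ ν ∈ U.toFinset, cf2 a p q b ν * wgt ν := by
      have h7 := h1.symm.trans (h3.trans (h4.symm.trans h2))
      simpa using h7
    simp only [sub_mul]
    rw [sum_sub_distrib, h6, sub_self]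
  rw [List.sum_toFinset _ U_nodup] at h5
  have hlen : U.length = 373 := by
    have := congrArg List.length U_idx
    rwa [List.length_map, List.length_range'] at this
  rw [sum_wgt (fun ν => cf1 a p q b ν - cf2 a p q b ν) U 0 (by rw [U_idx, hlen]), pow_zero,
    one_mul] at h5
  intro ν hν
  rw [List.mem_toFinset] at hν
  have h8 := enc_eq_zero _ ?_ h5 (cf1 a p q b ν - cf2 a p q b ν) (List.mem_map_of_mem hν)
  · linarith
  · intro x hx
    rw [List.mem_map] at hx
    obtain ⟨μ, -, rfl⟩ := hx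
    have h9 := cf1_le ha hp hq hb μ
    have h10 := cf2_le ha hp hq hb μ
    have h11 : (base : ℤ) = 281474976710656 := rfl
    rw [h11]
    refine lt_of_le_of_lt (abs_sub _ _) ?_
    linarith

theorem main_identity {A : Type} [CommRing A] (g : List ℕ → A) {a p q b : ℕ} (ha : a ≤ 4)
    (hp : p ≤ 2) (hq : q ≤ 2) (hb : b ≤ 5) :
    dotR (cvec a p q b) ((P (a + p + q + b)).map fun μ => ((strips μ).map g).sum) =
    ∑ t ∈ T a p q b, (mult a p q b t : A) *
      dotR (cvec (a - t.1) (p - t.2.1) (q - t.2.2.1) (b - t.2.2.2))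
        ((P ((a - t.1) + (p - t.2.1) + (q - t.2.2.1) + (b - t.2.2.2))).map g) := by
  rw [F1_eq g a p q b (by omega), F2_eq g a p q b (by omega)]
  refine sum_congr rfl fun ν hν => ?_
  rw [cf_eq ha hp hq hb ν hν]

theorem dotR_mul {A : Type} [CommRing A] (x : A) (g : List ℕ → A) : ∀ (v : List ℤ)
    (L : List (List ℕ)), dotR v (L.map fun ν => x * g ν) = x * dotR v (L.map g)
  | [], L => by simp [dotR_nil_left]
  | a :: v, [] => by simp [dotR_nil_right]
  | a :: v, μ :: L => by
    simp only [List.map_cons, dotR_cons]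
    rw [dotR_mul x g v L]
    ring

theorem dotR_zero {A : Type} [CommRing A] : ∀ (v : List ℤ) (L : List (List ℕ)),
    dotR v (L.map fun _ => (0 : A)) = 0
  | [], L => by simp [dotR_nil_left]
  | a :: v, [] => by simp [dotR_nil_right]
  | a :: v, μ :: L => by
    simp only [List.map_cons, dotR_cons]
    rw [dotR_zero v L]
    ring

/-- The Schur expansions of the chromatic polynomials of the blow-ups. -/
theorem XS_eq (k : ℕ) : ∀ {a p q b : ℕ}, a ≤ 4 → p ≤ 2 → q ≤ 2 → b ≤ 5 →
    XS k a p q b = dotR (cvec a p q b) ((P (a + p + q + b)).map (Sch k)) := by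
  induction k with
  | zero =>
    intro a p q b ha hp hq hb
    rw [XS]
    by_cases h : a + p + q + b = 0
    · obtain ⟨rfl, rfl, rfl, rfl⟩ : a = 0 ∧ p = 0 ∧ q = 0 ∧ b = 0 := by omega
      rw [cvec_zero]
      simp [P, pts, dotR, Sch]
    · rw [if_neg h]
      have h1 : ∀ μ ∈ P (a + p + q + b), Sch 0 μ = 0 := by
        intro μ hμ
        rw [Sch, if_neg]
        rintro rfl
        rw [mem_P] at hμ
        simp at hμ
        omega
      rw [List.map_congr_left h1, dotR_zero]
  | succ k ih =>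
    intro a p q b ha hp hq hb
    have h1 : dotR (cvec a p q b) ((P (a + p + q + b)).map (Sch (k + 1))) =
        dotR (cvec a p q b) ((P (a + p + q + b)).map fun μ => ((strips μ).map fun ν =>
          (MvPolynomial.X k : MvPolynomial ℕ ℤ) ^ (a + p + q + b - ν.sum) * Sch k ν).sum) := by
      refine dotR_congr _ _ _ _ fun μ hμ => ?_
      rw [Sch, (mem_P.1 hμ).2]
    rw [h1, main_identity _ ha hp hq hb, XS]
    refine sum_congr rfl fun t ht => ?_
    congr 1
    rw [ih (by omega) (by omega) (by omega) (by omega), ← dotR_mul]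
    refine dotR_congr _ _ _ _ fun ν hν => ?_
    obtain ⟨⟨h2, h3, h4, h5⟩, -⟩ := mem_T.1 ht
    rw [(mem_P.1 hν).2]
    congr 2
    unfold size
    omega

end Pool.Agent.Q125.Monical
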