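import Pool.Agent.Q125.Monical.Chrom
import Pool.Agent.Q125.Monical.Defs

/-!
# The recursion for the chromatic polynomials of the blow-ups of the path on four vertices
-/

set_option autoImplicit false

open Finset

namespace Pool.Agent.Q125.Monical

/-- The counts of a stable set. -/
def stab (t : ℕ × ℕ × ℕ × ℕ) : Prop :=
  (t.1 = 0 ∨ t.2.1 = 0) ∧ (t.2.1 = 0 ∨ t.2.2.1 = 0) ∧ (t.2.2.1 = 0 ∨ t.2.2.2 = 0)

instance (t : ℕ × ℕ × ℕ × ℕ) : Decidable (stab t) := by
  unfold stab
  infer_instance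

/-- The counts of the stable sets of the blow-up. -/
def T (a p q b : ℕ) : Finset (ℕ × ℕ × ℕ × ℕ) :=
  (range (a + 1) ×ˢ range (p + 1) ×ˢ range (q + 1) ×ˢ range (b + 1)).filter stab

/-- The number of the sets with given counts. -/
def mult (a p q b : ℕ) (t : ℕ × ℕ × ℕ × ℕ) : ℕ :=
  a.choose t.1 * p.choose t.2.1 * q.choose t.2.2.1 * b.choose t.2.2.2

/-- The size of a set with given counts. -/
def size (t : ℕ × ℕ × ℕ × ℕ) : ℕ := t.1 + t.2.1 + t.2.2.1 + t.2.2.2

theorem mem_T {a p q b : ℕ} {t : ℕ × ℕ × ℕ × ℕ} : t ∈ T a p q b ↔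
    (t.1 ≤ a ∧ t.2.1 ≤ p ∧ t.2.2.1 ≤ q ∧ t.2.2.2 ≤ b) ∧ stab t := by
  unfold T
  rw [mem_filter]
  simp only [mem_product, mem_range, Nat.lt_add_one_iff]

/-- The chromatic polynomial of the blow-up in `k` variables, by the recursion on the last colour. -/
noncomputable def XS : ℕ → ℕ → ℕ → ℕ → ℕ → MvPolynomial ℕ ℤ
  | 0, a, p, q, b => if a + p + q + b = 0 then 1 else 0
  | k + 1, a, p, q, b => ∑ t ∈ T a p q b, (mult a p q b t : MvPolynomial ℕ ℤ) *
      (MvPolynomial.X k ^ size t * XS k (a - t.1) (p - t.2.1) (q - t.2.2.1) (b - t.2.2.2))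

theorem nested_eq {A : Type} [CommRing A] (a p q b : ℕ) (F : ℕ → ℕ → ℕ → ℕ → A) :
    ∑ i ∈ range (a + 1), (a.choose i : A) * ∑ j ∈ range (p + 1), (p.choose j : A) *
      ∑ l ∈ range (q + 1), (q.choose l : A) * ∑ m ∈ range (b + 1), (b.choose m : A) *
        (if stab (i, j, l, m) then F i j l m else 0) =
    ∑ t ∈ T a p q b, (mult a p q b t : A) * F t.1 t.2.1 t.2.2.1 t.2.2.2 := by
  unfold T
  rw [sum_filter, sum_product]
  refine sum_congr rfl fun i _ => ?_
  rw [sum_product, mul_sum]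
  refine sum_congr rfl fun j _ => ?_
  rw [sum_product, mul_sum, mul_sum]
  refine sum_congr rfl fun l _ => ?_
  rw [mul_sum, mul_sum, mul_sum]
  refine sum_congr rfl fun m _ => ?_
  split_ifs
  · simp only [mult]
    push_cast
    ring
  · ring

section graph

variable {V : Type} [DecidableEq V] (cls : V → ℕ)

/-- The adjacency in the blow-up. -/
def adjc (u v : V) : Prop := cls u + 1 = cls v ∨ cls v + 1 = cls u

instance : DecidableRel (adjc cls) := fun u v => by
  unfold adjc
  infer_instance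

omit [DecidableEq V] in
theorem Stab_iff (S : Finset V) (hS : ∀ v ∈ S, cls v < 4) : Stab (adjc cls) S ↔
    stab (cnt cls 0 S, cnt cls 1 S, cnt cls 2 S, cnt cls 3 S) := by
  have hne : ∀ c, cnt cls c S ≠ 0 ↔ ∃ v ∈ S, cls v = c := fun c => by
    rw [Ne, cnt_eq_zero]
    push Not
    rfl
  unfold stab Stab adjc
  simp only
  constructor
  · intro h
    refine ⟨?_, ?_, ?_⟩
    all_goals
      by_contra hcon
      rw [not_or] at hcon
      obtain ⟨u, hu, hu'⟩ := (hne _).1 hcon.1
      obtain ⟨v, hv, hv'⟩ := (hne _).1 hcon.2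
      exact h u hu v hv (Or.inl (by omega))
  · rintro ⟨h1, h2, h3⟩
    have key : ∀ u ∈ S, ∀ v ∈ S, ¬ cls u + 1 = cls v := by
      intro u hu v hv huv
      have hv4 := hS v hv
      have h0 : cls u = 0 ∨ cls u = 1 ∨ cls u = 2 := by omega
      have hcu := (hne (cls u)).2 ⟨u, hu, rfl⟩
      have hcv := (hne (cls v)).2 ⟨v, hv, rfl⟩
      rw [← huv] at hcv
      rcases h0 with h0 | h0 | h0 <;> rw [h0] at hcu hcv
      · exact h1.elim hcu hcv
      · exact h2.elim hcu hcv
      · exact h3.elim hcu hcv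
    intro u hu v hv h
    exact h.elim (key u hu v hv) (key v hv u hu)

theorem Z_eq_XS [Fintype V] (hcls : ∀ v, cls v < 4) (k : ℕ) : ∀ U : Finset V, Z (adjc cls) k U =
    XS k (cnt cls 0 U) (cnt cls 1 U) (cnt cls 2 U) (cnt cls 3 U) := by
  induction k with
  | zero =>
    intro U
    rw [Z_zero, XS, ← card_eq_cnt cls U fun v _ => hcls v]
    simp only [card_eq_zero]
  | succ k ih =>
    intro U
    rw [Z_succ, XS, sum_filter]
    rw [← nested_eq (cnt cls 0 U) (cnt cls 1 U) (cnt cls 2 U) (cnt cls 3 U)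
      (fun i j l m => MvPolynomial.X k ^ size (i, j, l, m) *
        XS k (cnt cls 0 U - i) (cnt cls 1 U - j) (cnt cls 2 U - l) (cnt cls 3 U - m))]
    rw [← sum_powerset_cnt cls U (fun v _ => hcls v) (fun i j l m => if stab (i, j, l, m) then
      MvPolynomial.X k ^ size (i, j, l, m) *
        XS k (cnt cls 0 U - i) (cnt cls 1 U - j) (cnt cls 2 U - l) (cnt cls 3 U - m) else 0)]
    refine sum_congr rfl fun S hS => ?_
    rw [mem_powerset] at hS
    have h1 := Stab_iff cls S fun v _ => hcls v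
    by_cases h : Stab (adjc cls) S
    · rw [if_pos h, if_pos (h1.1 h), ih, cnt_sdiff cls _ U S hS, cnt_sdiff cls _ U S hS,
        cnt_sdiff cls _ U S hS, cnt_sdiff cls _ U S hS, card_eq_cnt cls S fun v _ => hcls v]
      rfl
    · rw [if_neg h, if_neg fun h' => h (h1.2 h')]

end graph

/-- A sum by recursion. -/
def sumR : ℕ → (ℕ → ℤ) → ℤ
  | 0, f => f 0
  | n + 1, f => f (n + 1) + sumR n f

theorem sumR_eq (n : ℕ) (f : ℕ → ℤ) : sumR n f = ∑ i ∈ range (n + 1), f i := by
  induction n with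
  | zero => simp [sumR]
  | succ n ih => rw [sumR, ih, Finset.sum_range_succ _ (n + 1), add_comm]

theorem sumR_ite (i n : ℕ) (f : ℕ → ℤ) : sumR (if i = 0 then n else 0) f =
    ∑ j ∈ range (n + 1), if i = 0 ∨ j = 0 then f j else 0 := by
  rw [sumR_eq]
  by_cases h : i = 0
  · simp [h]
  · simp only [h, if_false, false_or]
    rw [zero_add, sum_range_one, Finset.sum_ite_eq' (range (n + 1)) 0 f]
    simp

/-- The encoded sum over the stable sets. -/
def rhsN (a p q b : ℕ) : ℤ :=
  sumR a fun i => (a.choose i : ℤ) *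
    sumR (if i = 0 then p else 0) fun j => (p.choose j : ℤ) *
      sumR (if j = 0 then q else 0) fun l => (q.choose l : ℤ) *
        sumR (if l = 0 then b else 0) fun m =>
          ((b.choose m * base ^ off ((a - i) + (p - j) + (q - l) + (b - m)) : ℕ) : ℤ) *
          vZ (a - i) (p - j) (q - l) (b - m)

theorem rhsN_eq (a p q b : ℕ) : rhsN a p q b =
    ∑ t ∈ T a p q b, (mult a p q b t : ℤ) *
      ((base : ℤ) ^ off ((a - t.1) + (p - t.2.1) + (q - t.2.2.1) + (b - t.2.2.2)) *
        vZ (a - t.1) (p - t.2.1) (q - t.2.2.1) (b - t.2.2.2)) := by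
  rw [← nested_eq a p q b (fun i j l m =>
    (base : ℤ) ^ off ((a - i) + (p - j) + (q - l) + (b - m)) * vZ (a - i) (p - j) (q - l) (b - m))]
  unfold rhsN
  simp only [sumR_ite]
  rw [sumR_eq]
  refine sum_congr rfl fun i _ => ?_
  congr 1
  refine sum_congr rfl fun j _ => ?_
  by_cases h1 : i = 0 ∨ j = 0
  · rw [if_pos h1]
    congr 1
    refine sum_congr rfl fun l _ => ?_
    by_cases h2 : j = 0 ∨ l = 0
    · rw [if_pos h2]
      congr 1
      refine sum_congr rfl fun m _ => ?_
      by_cases h3 : l = 0 ∨ m = 0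
      · rw [if_pos h3, if_pos ⟨h1, h2, h3⟩]
        push_cast
        ring
      · rw [if_neg h3, if_neg fun h => h3 h.2.2]
        ring
    · rw [if_neg h2]
      symm
      rw [Finset.sum_eq_zero]
      · ring
      · intro m _
        rw [if_neg fun h => h2 h.2.1]
        ring
  · rw [if_neg h1]
    symm
    rw [Finset.sum_eq_zero]
    · ring
    · intro l _
      rw [Finset.sum_eq_zero]
      · ring
      · intro m _
        rw [if_neg fun h => h1 h.1]
        ring

end Pool.Agent.Q125.Monical
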